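import Pool.Agent.EMT.TBridge
import Pool.Agent.EMT.TX.oNN

/-!
# EMT / TY / O1p1: boxes of one inequality
-/

set_option autoImplicit false
set_option maxRecDepth 100000

namespace Pool.Agent.EMT.TO1

open KN (PM TrK chkK Pre)

def c6 : TrK := .s 0 (.s 1 (.l 0 0) (.s 1 (.s 2 (.s 0 (.l 1000000000 0) (.l 0 0)) (.l 3000000000
  0)) (.s 0 (.s 2 (.s 1 (.s 0 (.l 4000000000 0) (.s 2 (.l 600000000 0) (.l 2000000000 0))) (.s 0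
  (.l 4000000000 0) (.s 2 (.l 600000000 0) (.l 2000000000 0)))) (.l 10000000000 0)) (.s 1 (.s 2
  (.s 0 (.s 1 (.l 200000000 0) (.s 2 (.l 0 0) (.l 600000000 0))) (.l 0 0)) (.l 2000000000 0)) (.s
  2 (.s 0 (.s 2 (.l 0 0) (.l 500000000 0)) (.l 0 0)) (.l 2000000000 0)))))) (.s 1 (.s 0 (.s 2 (.s
  1 (.l 1000000000 0) (.l 0 0)) (.l 3000000000 0)) (.s 1 (.s 2 (.s 0 (.s 1 (.l 4000000000 0) (.s 2
  (.l 600000000 0) (.l 2000000000 0))) (.s 1 (.l 4000000000 0) (.s 2 (.l 600000000 0) (.l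
  2000000000 0)))) (.l 10000000000 0)) (.s 0 (.s 2 (.s 1 (.s 0 (.l 200000000 0) (.s 2 (.l 0 0) (.l
  600000000 0))) (.l 0 0)) (.l 2000000000 0)) (.s 2 (.s 1 (.s 2 (.l 0 0) (.l 500000000 0)) (.l 0
  0)) (.l 2000000000 0))))) (.l 20000000 0))

lemma h6 : chkK 12 12 5 pm_oNN mGO mC2 (2 ^ 51) 7 6
    c6 0 3 4 0 3 4 6 8 4 = true := by decide +kernel

def c7 : TrK := .s 0 (.s 2 (.s 1 (.s 2 (.l 0 0) (.s 1 (.s 0 (.l 400000000 0) (.l 0 0)) (.s 0 (.s 2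
  (.l 200000000 0) (.l 1000000000 0)) (.l 0 0)))) (.s 2 (.l 0 0) (.s 0 (.s 1 (.s 2 (.s 0 (.l
  2000000000 0) (.l 500000000 0)) (.s 0 (.l 4000000000 0) (.l 1500000000 0))) (.s 2 (.s 0 (.l
  2000000000 0) (.l 500000000 0)) (.l 2400000000 0))) (.s 2 (.l 0 0) (.s 1 (.s 0 (.s 2 (.l 0 0)
  (.l 900000000 0)) (.l 0 0)) (.s 0 (.l 900000000 0) (.l 0 0))))))) (.s 1 (.s 2 (.s 0 (.l
  4000000000 0) (.l 850000000 0)) (.l 10000000000 0)) (.s 0 (.l 10000000000 0) (.s 1 (.s 2 (.s 0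
  (.l 3000000000 0) (.l 900000000 0)) (.l 4000000000 0)) (.s 2 (.s 0 (.l 3000000000 0) (.l
  1000000000 0)) (.l 4000000000 0)))))) (.s 1 (.s 2 (.l 0 0) (.s 2 (.s 1 (.s 0 (.l 200000000 0)
  (.l 0 0)) (.l 0 0)) (.l 920000000 0))) (.s 2 (.l 0 0) (.s 1 (.s 0 (.s 2 (.l 370000000 0) (.l
  800000000 0)) (.l 0 0)) (.s 2 (.s 1 (.s 0 (.s 0 (.l 500000000 0) (.l 0 0)) (.l 0 0)) (.s 2 (.s 0
  (.l 200000000 0) (.l 0 0)) (.l 300000000 0))) (.l 800000000 0)))))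

lemma h7 : chkK 12 12 5 pm_oNN mGO mC2 (2 ^ 51) 7 6
    c7 0 3 8 3 6 4 2 4 2 = true := by decide +kernel

def c8 : TrK := .s 1 (.s 2 (.l 0 0) (.l 0 0)) (.s 2 (.l 0 0) (.s 1 (.l 0 0) (.s 2 (.s 1 (.l 0 0)
  (.s 0 (.l 0 0) (.s 2 (.l 0 0) (.s 1 (.s 0 (.l 0 0) (.l 0 2000000000)) (.s 0 (.s 2 (.l 0 0) (.s 1
  (.l 0 1500000000) (.s 0 (.l 0 2000000000) (.l 0 4000000000)))) (.s 2 (.s 1 (.l 0 2000000000) (.s
  0 (.l 0 3100000000) (.l 0 4970000000))) (.s 1 (.l 0 5000000000) (.l 0 8000000000)))))))) (.s 0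
  (.s 0 (.l 0 0) (.s 1 (.l 0 0) (.s 2 (.l 1200000000 600000000) (.l 5000000000 0)))) (.s 1 (.s 1
  (.l 1000000000 0) (.s 2 (.s 0 (.l 0 0) (.l 0 3000000000)) (.l 2000000000 4000000000))) (.s 2 (.s
  0 (.s 1 (.s 2 (.l 0 2000000000) (.l 0 4000000000)) (.s 2 (.l 0 4500000000) (.l 0 9000000000)))
  (.s 1 (.l 0 7000000000) (.l 0 20000000000))) (.l 10000000000 9000000000)))))))

lemma h8 : chkK 12 12 5 pm_oNN mGO mC2 (2 ^ 51) 7 6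
    c8 3 6 8 3 6 4 2 4 2 = true := by decide +kernel

def c9 : TrK := .s 1 (.s 2 (.s 0 (.s 2 (.l 0 0) (.s 0 (.s 1 (.l 400000000 0) (.l 0 0)) (.s 1 (.s 2
  (.l 200000000 0) (.l 1000000000 0)) (.l 0 0)))) (.s 2 (.l 0 0) (.s 1 (.s 0 (.s 2 (.s 1 (.l
  2000000000 0) (.l 500000000 0)) (.s 1 (.l 4000000000 0) (.l 1500000000 0))) (.s 2 (.s 1 (.l
  2000000000 0) (.l 500000000 0)) (.l 2400000000 0))) (.s 2 (.l 0 0) (.s 0 (.s 1 (.s 2 (.l 0 0)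
  (.l 900000000 0)) (.l 0 0)) (.s 1 (.l 900000000 0) (.l 0 0))))))) (.s 0 (.s 2 (.s 1 (.l
  4000000000 0) (.l 850000000 0)) (.l 10000000000 0)) (.s 1 (.l 10000000000 0) (.s 0 (.s 2 (.s 1
  (.l 3000000000 0) (.l 900000000 0)) (.l 4000000000 0)) (.s 2 (.s 1 (.l 3000000000 0) (.l
  1000000000 0)) (.l 4000000000 0)))))) (.s 0 (.s 2 (.l 0 0) (.s 2 (.s 0 (.s 1 (.l 200000000 0)
  (.l 0 0)) (.l 0 0)) (.l 920000000 0))) (.s 2 (.l 0 0) (.s 0 (.s 1 (.s 2 (.l 370000000 0) (.l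
  800000000 0)) (.l 0 0)) (.s 2 (.s 0 (.s 1 (.s 1 (.l 500000000 0) (.l 0 0)) (.l 0 0)) (.s 2 (.s 1
  (.l 200000000 0) (.l 0 0)) (.l 300000000 0))) (.l 800000000 0)))))

lemma h9 : chkK 12 12 5 pm_oNN mGO mC2 (2 ^ 51) 7 6
    c9 3 6 4 0 3 8 2 4 2 = true := by decide +kernel

end Pool.Agent.EMT.TO1
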