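import Pool.Agent.EMT.TBridge
import Pool.Agent.EMT.TX.oNN

/-!
# EMT / TY / O1p2: boxes of one inequality
-/

set_option autoImplicit false
set_option maxRecDepth 100000

namespace Pool.Agent.EMT.TO1

open KN (PM TrK chkK Pre)

def c10 : TrK := .s 0 (.s 2 (.l 0 0) (.l 0 0)) (.s 2 (.l 0 0) (.s 0 (.l 0 0) (.s 2 (.s 0 (.l 0 0)
  (.s 1 (.l 0 0) (.s 2 (.l 0 0) (.s 0 (.s 1 (.l 0 0) (.l 0 2000000000)) (.s 1 (.s 2 (.l 0 0) (.s 0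
  (.l 0 1500000000) (.s 1 (.l 0 2000000000) (.l 0 4000000000)))) (.s 2 (.s 0 (.l 0 2000000000) (.s
  1 (.l 0 3100000000) (.l 0 4970000000))) (.s 0 (.l 0 5000000000) (.l 0 8000000000)))))))) (.s 1
  (.s 1 (.l 0 0) (.s 0 (.l 0 0) (.s 2 (.l 1200000000 600000000) (.l 5000000000 0)))) (.s 0 (.s 0
  (.l 1000000000 0) (.s 2 (.s 1 (.l 0 0) (.l 0 3000000000)) (.l 2000000000 4000000000))) (.s 2 (.s
  1 (.s 0 (.s 2 (.l 0 2000000000) (.l 0 4000000000)) (.s 2 (.l 0 4500000000) (.l 0 9000000000)))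
  (.s 0 (.l 0 7000000000) (.l 0 20000000000))) (.l 10000000000 9000000000)))))))

lemma h10 : chkK 12 12 5 pm_oNN mGO mC2 (2 ^ 51) 7 6
    c10 3 6 4 3 6 8 2 4 2 = true := by decide +kernel

def c11 : TrK := .l 0 0

lemma h11 : chkK 12 12 5 pm_oNN mGO mC2 (2 ^ 51) 7 6
    c11 3 6 4 3 6 4 8 10 8 = true := by decide +kernel

def c12 : TrK := .s 1 (.l 0 0) (.s 1 (.l 0 0) (.s 2 (.l 0 0) (.s 0 (.l 0 0) (.s 1 (.l 0 0) (.s 2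
  (.l 0 0) (.s 0 (.s 1 (.l 0 0) (.s 1 (.l 0 0) (.s 2 (.l 0 0) (.s 0 (.l 0 0) (.s 1 (.l 0 0) (.s 2
  (.l 0 0) (.l 0 11400000000))))))) (.s 1 (.l 0 5000000000) (.s 2 (.s 1 (.l 0 3000000000) (.s 0
  (.l 0 11000000000) (.s 2 (.l 0 14500000000) (.l 0 17000000000)))) (.s 0 (.s 1 (.l 0 10000000000)
  (.s 2 (.l 0 14000000000) (.l 0 17000000000))) (.l 0 19000000000))))))))))

lemma h12 : chkK 12 12 5 pm_oNN mGO mC2 (2 ^ 51) 7 6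
    c12 6 9 8 3 6 4 10 12 8 = true := by decide +kernel

def c13 : TrK := .s 0 (.l 0 0) (.s 2 (.l 0 0) (.s 1 (.l 0 0) (.s 0 (.l 0 0) (.s 2 (.l 0 0) (.s 1
  (.s 0 (.l 0 0) (.s 0 (.l 0 0) (.s 2 (.l 0 0) (.s 1 (.l 0 0) (.s 0 (.l 0 0) (.s 2 (.l 0 0) (.l 0
  11400000000))))))) (.s 0 (.l 0 5000000000) (.s 2 (.s 0 (.l 0 3000000000) (.s 1 (.l 0
  11000000000) (.s 2 (.l 0 14500000000) (.l 0 17000000000)))) (.s 1 (.s 0 (.l 0 10000000000) (.s 2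
  (.l 0 14000000000) (.l 0 17000000000))) (.l 0 19000000000)))))))))

lemma h13 : chkK 12 12 5 pm_oNN mGO mC2 (2 ^ 51) 7 6
    c13 9 12 8 6 9 8 10 12 8 = true := by decide +kernel

def c14 : TrK := .s 1 (.l 0 0) (.s 1 (.l 0 0) (.s 2 (.l 0 0) (.s 0 (.l 0 0) (.s 1 (.l 0 0) (.s 2
  (.l 0 0) (.s 0 (.s 1 (.l 0 0) (.l 0 16500000000)) (.s 1 (.l 0 18000000000) (.s 2 (.s 0 (.l 0
  16000000000) (.l 0 21000000000)) (.s 0 (.l 0 21000000000) (.l 0 24000000000))))))))))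

lemma h14 : chkK 12 12 5 pm_oNN mGO mC2 (2 ^ 51) 7 6
    c14 18 21 16 9 12 8 20 22 16 = true := by decide +kernel

def c15 : TrK := .s 0 (.l 0 0) (.s 2 (.l 0 0) (.s 1 (.l 0 0) (.s 0 (.l 0 0) (.s 2 (.l 0 0) (.s 1
  (.s 0 (.l 0 0) (.l 0 16500000000)) (.s 0 (.l 0 18000000000) (.s 2 (.s 1 (.l 0 16000000000) (.l 0
  21000000000)) (.s 1 (.l 0 21000000000) (.l 0 24000000000)))))))))

lemma h15 : chkK 12 12 5 pm_oNN mGO mC2 (2 ^ 51) 7 6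
    c15 21 24 16 18 21 16 20 22 16 = true := by decide +kernel

def c16 : TrK := .s 1 (.l 0 0) (.s 2 (.l 0 0) (.s 1 (.l 0 0) (.s 0 (.l 0 0) (.s 2 (.l 0 0) (.s 1
  (.l 0 1000000000) (.s 0 (.l 0 20000000000) (.s 2 (.l 0 20000000000) (.l 0 23000000000))))))))

lemma h16 : chkK 12 12 5 pm_oNN mGO mC2 (2 ^ 51) 7 6
    c16 42 45 32 21 24 16 40 42 32 = true := by decide +kernel

def c17 : TrK := .s 1 (.s 2 (.l 0 0) (.s 0 (.l 0 0) (.s 1 (.l 0 0) (.s 2 (.l 0 0) (.s 0 (.l 0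
  1000000000) (.s 1 (.l 0 20000000000) (.s 2 (.l 0 20000000000) (.l 0 23000000000)))))))) (.s 2
  (.s 0 (.s 1 (.l 0 0) (.s 2 (.l 0 0) (.s 1 (.l 0 0) (.l 0 20000000000)))) (.s 1 (.s 2 (.l 0 0)
  (.s 0 (.l 0 0) (.l 0 20000000000))) (.s 2 (.s 0 (.l 0 20000000000) (.s 1 (.l 0 20000000000) (.l
  0 23000000000))) (.s 0 (.s 1 (.l 0 20000000000) (.s 2 (.l 0 22000000000) (.l 0 24000000000)))
  (.s 1 (.s 2 (.l 0 22000000000) (.l 0 24000000000)) (.l 0 27000000000)))))) (.s 0 (.s 1 (.s 2 (.l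
  0 0) (.s 1 (.l 0 0) (.s 0 (.l 0 0) (.l 0 22000000000)))) (.s 2 (.s 1 (.s 0 (.l 0 0) (.l 0
  22000000000)) (.s 0 (.l 0 22000000000) (.s 2 (.l 0 23000000000) (.l 0 25000000000)))) (.s 1 (.s
  0 (.l 0 22300000000) (.s 2 (.l 0 24000000000) (.l 0 27000000000))) (.s 0 (.s 2 (.l 0
  24000000000) (.l 0 27000000000)) (.l 0 40000000000))))) (.s 1 (.s 2 (.s 0 (.s 1 (.l 0 0) (.l 0
  22000000000)) (.s 1 (.l 0 22000000000) (.s 2 (.l 0 23000000000) (.l 0 25000000000)))) (.s 0 (.s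
  1 (.l 0 22300000000) (.s 2 (.l 0 24000000000) (.l 0 27000000000))) (.s 1 (.s 2 (.l 0
  24000000000) (.l 0 27000000000)) (.l 0 40000000000)))) (.s 2 (.s 0 (.s 1 (.s 2 (.l 0
  23400000000) (.l 0 25000000000)) (.l 0 28000000000)) (.l 0 29000000000)) (.l 0 30000000000)))))

lemma h17 : chkK 12 12 5 pm_oNN mGO mC2 (2 ^ 51) 7 6
    c17 45 48 32 21 24 16 40 42 32 = true := by decide +kernel

end Pool.Agent.EMT.TO1
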