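import Pool.Agent.EMT.TY.O1p0
import Pool.Agent.EMT.TY.O1p1
import Pool.Agent.EMT.TY.O1p2
import Pool.Agent.EMT.TY.O1p3
import Pool.Agent.EMT.TBridge
import Pool.Agent.EMT.TX.oNN

/-!
# EMT / TY / O1: the boxes of one inequality
-/

set_option autoImplicit false
set_option maxRecDepth 100000

namespace Pool.Agent.EMT.TO1

open KN (PM TrK chkK Pre)

def c24 : TrK := .s 2 (.s 0 (.s 1 (.s 2 (.l 0 0) (.s 1 (.l 0 0) (.s 0 (.l 0 0) (.l 0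
  7000000000)))) (.s 2 (.s 1 (.s 2 (.l 0 0) (.l 0 3000000000)) (.s 0 (.s 2 (.l 0 0) (.s 1 (.l 0 0)
  (.s 2 (.l 0 4400000000) (.s 0 (.l 0 5000000000) (.l 0 8000000000))))) (.s 2 (.s 1 (.l 0 0) (.s 2
  (.l 0 0) (.s 0 (.l 0 5000000000) (.l 0 9300000000)))) (.s 1 (.s 0 (.l 0 7000000000) (.l 0
  10000000000)) (.s 0 (.s 2 (.l 0 9000000000) (.l 0 10000000000)) (.l 0 14000000000)))))) (.s 0
  (.s 1 (.s 2 (.l 0 4000000000) (.l 0 8000000000)) (.s 2 (.s 1 (.l 0 6500000000) (.s 0 (.l 0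
  8000000000) (.l 0 20000000000))) (.l 0 20000000000))) (.s 1 (.l 0 11600000000) (.l 0
  30000000000))))) (.s 1 (.s 2 (.s 0 (.l 0 0) (.s 1 (.l 0 400000000) (.l 0 12000000000))) (.s 0
  (.l 0 13000000000) (.l 0 30000000000))) (.s 2 (.s 0 (.s 1 (.s 2 (.l 0 6000000000) (.l 0
  13000000000)) (.s 2 (.s 1 (.s 2 (.l 0 8000000000) (.l 0 12000000000)) (.s 0 (.s 2 (.s 1 (.l 0
  5000000000) (.s 2 (.l 0 8000000000) (.l 0 11000000000))) (.l 0 14000000000)) (.s 2 (.l 0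
  14000000000) (.l 0 30000000000)))) (.l 0 20000000000))) (.s 2 (.s 1 (.l 0 15000000000) (.s 0 (.l
  0 20000000000) (.l 0 40000000000))) (.l 0 40000000000))) (.l 0 70000000000)))) (.s 0 (.s 1 (.s 2
  (.s 0 (.l 0 7000000000) (.l 0 20000000000)) (.l 0 30000000000)) (.l 0 60000000000)) (.l 0
  100000000000))

lemma h24 : chkK 12 12 5 pm_oNN mGO mC2 (2 ^ 51) 7 6
    c24 6 9 8 21 24 16 6 8 4 = true := by decide +kernel

def c25 : TrK := .s 1 (.s 0 (.l 0 0) (.s 2 (.l 0 0) (.l 0 4000000000))) (.s 2 (.s 0 (.l 0 0) (.s 2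
  (.l 0 0) (.l 0 7000000000))) (.s 0 (.l 0 9000000000) (.l 0 22000000000)))

lemma h25 : chkK 12 12 5 pm_oNN mGO mC2 (2 ^ 51) 7 6
    c25 18 21 16 6 9 8 6 8 4 = true := by decide +kernel

def c26 : TrK := .s 2 (.s 1 (.s 0 (.s 2 (.l 0 0) (.s 0 (.l 0 0) (.s 1 (.l 0 0) (.l 0
  7000000000)))) (.s 2 (.s 0 (.s 2 (.l 0 0) (.l 0 3000000000)) (.s 1 (.s 2 (.l 0 0) (.s 0 (.l 0 0)
  (.s 2 (.l 0 4400000000) (.s 1 (.l 0 5000000000) (.l 0 8000000000))))) (.s 2 (.s 0 (.l 0 0) (.s 2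
  (.l 0 0) (.s 1 (.l 0 5000000000) (.l 0 9300000000)))) (.s 0 (.s 1 (.l 0 7000000000) (.l 0
  10000000000)) (.s 1 (.s 2 (.l 0 9000000000) (.l 0 10000000000)) (.l 0 14000000000)))))) (.s 1
  (.s 0 (.s 2 (.l 0 4000000000) (.l 0 8000000000)) (.s 2 (.s 0 (.l 0 6500000000) (.s 1 (.l 0
  8000000000) (.l 0 20000000000))) (.l 0 20000000000))) (.s 0 (.l 0 11600000000) (.l 0
  30000000000))))) (.s 0 (.s 2 (.s 1 (.l 0 0) (.s 0 (.l 0 400000000) (.l 0 12000000000))) (.s 1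
  (.l 0 13000000000) (.l 0 30000000000))) (.s 2 (.s 1 (.s 0 (.s 2 (.l 0 6000000000) (.l 0
  13000000000)) (.s 2 (.s 0 (.s 2 (.l 0 8000000000) (.l 0 12000000000)) (.s 1 (.s 2 (.s 0 (.l 0
  5000000000) (.s 2 (.l 0 8000000000) (.l 0 11000000000))) (.l 0 14000000000)) (.s 2 (.l 0
  14000000000) (.l 0 30000000000)))) (.l 0 20000000000))) (.s 2 (.s 0 (.l 0 15000000000) (.s 1 (.l
  0 20000000000) (.l 0 40000000000))) (.l 0 40000000000))) (.l 0 70000000000)))) (.s 1 (.s 0 (.s 2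
  (.s 1 (.l 0 7000000000) (.l 0 20000000000)) (.l 0 30000000000)) (.l 0 60000000000)) (.l 0
  100000000000))

lemma h26 : chkK 12 12 5 pm_oNN mGO mC2 (2 ^ 51) 7 6
    c26 21 24 16 6 9 8 6 8 4 = true := by decide +kernel

def c27 : TrK := .s 2 (.s 0 (.s 1 (.s 2 (.s 1 (.l 0 7000000000) (.s 0 (.l 0 9000000000) (.s 2 (.l
  0 16000000000) (.l 0 30000000000)))) (.s 1 (.s 0 (.l 0 7000000000) (.l 0 30000000000)) (.l 0
  32000000000))) (.s 2 (.s 1 (.s 0 (.s 2 (.l 0 17000000000) (.l 0 30000000000)) (.l 0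
  34000000000)) (.s 0 (.l 0 38000000000) (.l 0 90000000000))) (.l 0 100000000000))) (.s 1 (.s 2
  (.s 0 (.s 1 (.s 2 (.l 0 17000000000) (.l 0 30000000000)) (.l 0 34000000000)) (.s 1 (.l 0
  38000000000) (.l 0 90000000000))) (.l 0 100000000000)) (.l 0 200000000000))) (.s 0 (.l 0
  120000000000) (.l 0 300000000000))

lemma h27 : chkK 12 12 5 pm_oNN mGO mC2 (2 ^ 51) 7 6
    c27 9 12 8 9 12 8 6 8 4 = true := by decide +kernel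

lemma pre : Pre 12 12 5 pm_oNN mGO mC2 (2 ^ 51) 7 6 where
  sP := by constructor <;> decide +kernel
  sG := by constructor <;> decide +kernel
  sC := by constructor <;> decide +kernel
  nPp := by decide +kernel
  nPn := by decide +kernel
  nGp := by decide +kernel
  nGn := by decide +kernel
  nCp := by decide +kernel
  nCn := by decide +kernel

def T : TrK := (TrK.s 2 (TrK.s 0 (TrK.s 1 c0 c1) (TrK.s 1 c2 (TrK.s 2 c3 c4))) (TrK.s 0 (TrK.s 1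
  (TrK.s 2 c5 c6) (TrK.s 0 c7 c8)) (TrK.s 1 (TrK.s 1 c9 c10) (TrK.s 2 (TrK.s 2 c11 (TrK.s 0 c12
  (TrK.s 1 c13 (TrK.s 2 (TrK.s 0 c14 (TrK.s 1 c15 (TrK.s 2 (TrK.s 0 c16 c17) (TrK.s 0 c18 c19))))
  (TrK.s 0 c20 c21))))) (TrK.s 0 (TrK.s 1 c22 (TrK.s 1 c23 c24)) (TrK.s 1 (TrK.s 0 c25 c26)
  c27))))))

lemma ok : chkK 12 12 5 pm_oNN mGO mC2 (2 ^ 51) 7 6
    T 0 3 2 0 3 2 0 2 1 = true :=
(KN.chkK_c2 (KN.chkK_c0 (KN.chkK_c1 h0 h1) (KN.chkK_c1 h2 (KN.chkK_c2 h3 h4))) (KN.chkK_c0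
  (KN.chkK_c1 (KN.chkK_c2 h5 h6) (KN.chkK_c0 h7 h8)) (KN.chkK_c1 (KN.chkK_c1 h9 h10) (KN.chkK_c2
  (KN.chkK_c2 h11 (KN.chkK_c0 h12 (KN.chkK_c1 h13 (KN.chkK_c2 (KN.chkK_c0 h14 (KN.chkK_c1 h15
  (KN.chkK_c2 (KN.chkK_c0 h16 h17) (KN.chkK_c0 h18 h19)))) (KN.chkK_c0 h20 h21))))) (KN.chkK_c0
  (KN.chkK_c1 h22 (KN.chkK_c1 h23 h24)) (KN.chkK_c1 (KN.chkK_c0 h25 h26) h27))))))

theorem chk : Chk (polP false false true true tV tQN tQN) GO C2 (-1) (1 / 2) (-1) (1 / 2) (-1) 1 := by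
  refine chk_of ev_oNN mGO_ev mC2_ev pre (by norm_num) (by norm_num) (by norm_num) (by norm_num)
    (by norm_num) (by norm_num) ?_ ?_ ?_ ?_ ?_ ?_ ok <;> norm_num

end Pool.Agent.EMT.TO1
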