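import Pool.Agent.EMT.TBridge
import Pool.Agent.EMT.TX.oNN

/-!
# EMT / TY / O2: the boxes of one inequality
-/

set_option autoImplicit false
set_option maxRecDepth 100000

namespace Pool.Agent.EMT.TO2

open KN (PM TrK chkK Pre)

def c0 : TrK := .s 1 (.s 0 (.s 2 (.l 0 0) (.s 2 (.s 0 (.s 1 (.l 0 0) (.s 1 (.l 0 0) (.s 0 (.l
  280000000 0) (.l 0 0)))) (.s 1 (.s 0 (.l 0 0) (.s 1 (.l 280000000 0) (.l 0 0))) (.l 0 0))) (.s 0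
  (.s 1 (.l 0 0) (.s 0 (.l 200000000 0) (.l 0 0))) (.s 1 (.s 1 (.l 200000000 0) (.l 0 0)) (.l 0
  0))))) (.s 1 (.s 2 (.l 30000000 0) (.s 0 (.s 2 (.s 1 (.s 2 (.l 300000000 0) (.s 0 (.s 1 (.l
  400000000 0) (.l 0 0)) (.l 0 0))) (.l 0 0)) (.s 1 (.l 100000000 0) (.l 0 0))) (.l 0 0))) (.s 2
  (.l 30000000 0) (.l 0 0)))) (.s 0 (.s 0 (.s 2 (.l 30000000 0) (.s 1 (.s 2 (.s 0 (.s 2 (.l
  300000000 0) (.s 1 (.s 0 (.l 400000000 0) (.l 0 0)) (.l 0 0))) (.l 0 0)) (.s 0 (.l 100000000 0)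
  (.l 0 0))) (.l 0 0))) (.s 2 (.l 30000000 0) (.l 0 0))) (.s 2 (.s 2 (.s 2 (.s 2 (.l 430000000 0)
  (.l 0 0)) (.l 0 0)) (.l 0 0)) (.s 2 (.l 0 0) (.l 0 0))))

lemma h0 : chkK 12 12 5 pm_oNN mGO mC3 (2 ^ 51) 7 29
    c0 0 5 4 0 5 4 0 2 2 = true := by decide +kernel

def c1 : TrK := .s 2 (.s 0 (.s 1 (.s 2 (.l 0 0) (.l 0 0)) (.s 2 (.s 1 (.l 0 0) (.l 0 0)) (.s 1 (.l
  100000000 0) (.s 0 (.s 1 (.s 2 (.l 300000000 0) (.l 400000000 0)) (.s 0 (.l 800000000 0) (.l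
  30000000 0))) (.l 0 0))))) (.s 1 (.s 2 (.s 0 (.l 0 0) (.l 0 0)) (.s 0 (.l 100000000 0) (.s 1 (.s
  0 (.s 2 (.l 300000000 0) (.l 400000000 0)) (.s 1 (.l 800000000 0) (.l 30000000 0))) (.l 0 0))))
  (.s 2 (.l 0 0) (.l 0 0)))) (.s 1 (.s 0 (.l 0 0) (.s 0 (.l 0 0) (.s 0 (.s 2 (.s 1 (.l 700000000
  0) (.l 0 0)) (.l 1000000000 0)) (.s 1 (.l 8000000000 0) (.s 2 (.s 0 (.l 150000000 0) (.s 1 (.s 2
  (.l 100000000 0) (.l 700000000 0)) (.l 0 0))) (.l 2000000000 0)))))) (.s 0 (.s 1 (.l 0 0) (.s 1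
  (.s 2 (.s 0 (.l 700000000 0) (.l 0 0)) (.l 1000000000 0)) (.s 0 (.l 8000000000 0) (.s 2 (.s 1
  (.l 150000000 0) (.s 0 (.s 2 (.l 100000000 0) (.l 700000000 0)) (.l 0 0))) (.l 2000000000 0)))))
  (.l 80000000 0)))

lemma h1 : chkK 12 12 5 pm_oNN mGO mC3 (2 ^ 51) 7 29
    c1 0 5 8 0 5 8 2 4 2 = true := by decide +kernel

def c2 : TrK := .s 1 (.s 2 (.s 1 (.s 2 (.l 0 0) (.s 0 (.s 1 (.l 700000000 0) (.l 0 0)) (.s 1 (.s 2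
  (.s 0 (.l 0 0) (.s 1 (.l 2000000000 0) (.l 600000000 0))) (.l 3000000000 0)) (.s 2 (.l 0 0) (.s
  0 (.l 0 0) (.s 1 (.l 800000000 0) (.l 0 0))))))) (.l 0 0)) (.s 0 (.s 1 (.s 2 (.l 2300000000 0)
  (.l 10000000000 0)) (.s 2 (.s 2 (.l 100000000 0) (.s 1 (.l 1000000000 0) (.l 200000000 0))) (.l
  3000000000 0))) (.s 1 (.s 2 (.s 1 (.l 5000000000 0) (.l 2000000000 0)) (.l 7000000000 0)) (.s 1
  (.s 0 (.l 300000000 0) (.l 550000000 0)) (.l 10000000 0))))) (.s 2 (.l 0 0) (.s 1 (.s 0 (.s 0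
  (.s 2 (.l 0 0) (.l 300000000 0)) (.l 60000000 0)) (.l 0 0)) (.l 0 0)))

lemma h2 : chkK 12 12 5 pm_oNN mGO mC3 (2 ^ 51) 7 29
    c2 5 10 8 0 5 8 2 4 2 = true := by decide +kernel

def c3 : TrK := .s 0 (.s 2 (.s 0 (.s 2 (.l 0 0) (.s 1 (.s 0 (.l 700000000 0) (.l 0 0)) (.s 0 (.s 2
  (.s 1 (.l 0 0) (.s 0 (.l 2000000000 0) (.l 600000000 0))) (.l 3000000000 0)) (.s 2 (.l 0 0) (.s
  1 (.l 0 0) (.s 0 (.l 800000000 0) (.l 0 0))))))) (.l 0 0)) (.s 1 (.s 0 (.s 2 (.l 2300000000 0)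
  (.l 10000000000 0)) (.s 2 (.s 2 (.l 100000000 0) (.s 0 (.l 1000000000 0) (.l 200000000 0))) (.l
  3000000000 0))) (.s 0 (.s 2 (.s 0 (.l 5000000000 0) (.l 2000000000 0)) (.l 7000000000 0)) (.s 0
  (.s 1 (.l 300000000 0) (.l 550000000 0)) (.l 10000000 0))))) (.s 2 (.l 0 0) (.s 0 (.s 1 (.s 1
  (.s 2 (.l 0 0) (.l 300000000 0)) (.l 60000000 0)) (.l 0 0)) (.l 0 0)))

lemma h3 : chkK 12 12 5 pm_oNN mGO mC3 (2 ^ 51) 7 29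
    c3 0 5 8 5 10 8 2 4 2 = true := by decide +kernel

def c4 : TrK := .s 2 (.l 0 0) (.s 1 (.l 0 0) (.s 0 (.l 0 0) (.s 2 (.s 1 (.l 0 0) (.s 0 (.l 0 0)
  (.s 2 (.l 0 0) (.s 1 (.l 0 700000000) (.s 0 (.l 0 1000000000) (.l 0 3400000000)))))) (.s 1 (.s 0
  (.l 0 0) (.s 0 (.l 0 0) (.l 0 2200000000))) (.s 0 (.s 1 (.l 0 0) (.s 0 (.s 2 (.l 0 0) (.l
  5000000000 0)) (.s 2 (.s 1 (.l 0 0) (.s 2 (.l 0 0) (.s 0 (.l 0 0) (.l 0 2600000000)))) (.s 1 (.l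
  0 2000000000) (.s 0 (.s 2 (.s 1 (.l 0 0) (.s 0 (.l 0 0) (.s 2 (.l 0 0) (.l 0 3000000000)))) (.s
  1 (.l 0 2000000000) (.s 0 (.s 2 (.l 0 2870000000) (.l 0 4000000000)) (.l 0 6000000000)))) (.s 2
  (.s 1 (.l 0 3000000000) (.s 0 (.l 0 3300000000) (.l 0 7000000000))) (.l 0 8000000000))))))) (.s
  2 (.s 1 (.s 0 (.l 0 300000000) (.l 0 5000000000)) (.s 0 (.s 1 (.l 0 3000000000) (.s 2 (.l 0
  3000000000) (.l 0 4400000000))) (.l 0 10000000000))) (.s 1 (.l 0 5000000000) (.l 0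
  10000000000))))))))

lemma h4 : chkK 12 12 5 pm_oNN mGO mC3 (2 ^ 51) 7 29
    c4 5 10 8 5 10 8 2 4 2 = true := by decide +kernel

lemma pre : Pre 12 12 5 pm_oNN mGO mC3 (2 ^ 51) 7 29 where
  sP := by constructor <;> decide +kernel
  sG := by constructor <;> decide +kernel
  sC := by constructor <;> decide +kernel
  nPp := by decide +kernel
  nPn := by decide +kernel
  nGp := by decide +kernel
  nGn := by decide +kernel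
  nCp := by decide +kernel
  nCn := by decide +kernel

def T : TrK := (TrK.s 2 c0 (TrK.s 1 (TrK.s 0 c1 c2) (TrK.s 0 c3 c4)))

lemma ok : chkK 12 12 5 pm_oNN mGO mC3 (2 ^ 51) 7 29
    T 0 5 4 0 5 4 0 2 1 = true :=
(KN.chkK_c2 h0 (KN.chkK_c1 (KN.chkK_c0 h1 h2) (KN.chkK_c0 h3 h4)))

theorem chk : Chk (polP false false true true tV tQN tQN) GO C3 (-1) (1 / 4) (-1) (1 / 4) (-1) 1 := by
  refine chk_of ev_oNN mGO_ev mC3_ev pre (by norm_num) (by norm_num) (by norm_num) (by norm_num)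
    (by norm_num) (by norm_num) ?_ ?_ ?_ ?_ ?_ ?_ ok <;> norm_num

end Pool.Agent.EMT.TO2
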