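import Pool.Agent.EMT.TBridge
import Pool.Agent.EMT.TX.oNN

/-!
# EMT / TY / O3p1: boxes of one inequality
-/

set_option autoImplicit false
set_option maxRecDepth 100000

namespace Pool.Agent.EMT.TO3

open KN (PM TrK chkK Pre)

def c8 : TrK := .s 1 (.l 0 0) (.s 2 (.l 0 0) (.s 0 (.l 0 0) (.s 1 (.l 0 0) (.s 2 (.l 0 0) (.s 0
  (.s 1 (.l 0 0) (.s 2 (.l 0 0) (.s 0 (.l 0 0) (.s 1 (.l 0 0) (.s 2 (.l 0 0) (.l 0
  5700000000)))))) (.s 1 (.l 0 6000000000) (.s 2 (.s 0 (.l 0 5500000000) (.s 1 (.l 0 6000000000)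
  (.s 2 (.l 0 7300000000) (.l 0 8500000000)))) (.s 0 (.s 1 (.l 0 6000000000) (.s 2 (.l 0
  7000000000) (.l 0 9000000000))) (.l 0 10000000000)))))))))

lemma h8 : chkK 12 12 5 pm_oNN mGO mC4 (2 ^ 51) 7 22
    c8 6 9 8 5 6 4 10 12 8 = true := by decide +kernel

def c9 : TrK := .s 0 (.s 1 (.l 0 0) (.s 2 (.l 0 0) (.s 0 (.l 0 0) (.s 1 (.l 0 0) (.s 2 (.l 0 0)
  (.s 0 (.l 0 8300000000) (.s 1 (.l 0 4000000000) (.s 2 (.s 0 (.l 0 8000000000) (.l 0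
  11000000000)) (.l 0 12000000000))))))))) (.s 1 (.l 0 8000000000) (.s 2 (.s 0 (.s 1 (.l 0 0) (.s
  2 (.l 0 0) (.s 0 (.l 0 0) (.s 1 (.l 0 0) (.s 2 (.l 0 0) (.s 0 (.l 0 9000000000) (.l 0
  12000000000))))))) (.s 1 (.l 0 10000000000) (.s 2 (.s 0 (.l 0 10000000000) (.s 2 (.l 0
  11500000000) (.l 0 14000000000))) (.s 0 (.s 1 (.l 0 10000000000) (.s 2 (.s 0 (.l 0 12000000000)
  (.l 0 14000000000)) (.l 0 30000000000))) (.l 0 30000000000))))) (.s 0 (.s 1 (.l 0 10000000000)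
  (.s 2 (.s 0 (.s 1 (.l 0 300000000) (.s 2 (.l 0 10000000000) (.s 0 (.l 0 11000000000) (.l 0
  13000000000)))) (.s 1 (.l 0 10000000000) (.s 2 (.l 0 12700000000) (.l 0 30000000000)))) (.l 0
  30000000000))) (.l 0 40000000000))))

lemma h9 : chkK 12 12 5 pm_oNN mGO mC4 (2 ^ 51) 7 22
    c9 9 12 8 5 6 4 20 22 16 = true := by decide +kernel

def c10 : TrK := .s 0 (.s 1 (.s 0 (.l 0 0) (.l 0 7000000000)) (.s 2 (.s 0 (.s 1 (.l 0 0) (.s 2 (.s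
  1 (.l 0 0) (.s 0 (.l 0 0) (.s 2 (.l 0 0) (.l 0 8800000000)))) (.s 1 (.l 0 7000000000) (.s 0 (.s
  1 (.l 0 5000000000) (.s 2 (.l 0 7000000000) (.l 0 8580000000))) (.l 0 10600000000))))) (.s 1 (.l
  0 10000000000) (.s 2 (.s 0 (.s 1 (.l 0 7000000000) (.s 2 (.s 1 (.l 0 9000000000) (.s 0 (.l 0
  9000000000) (.l 0 12000000000))) (.l 0 20000000000))) (.l 0 30000000000)) (.l 0 30000000000))))
  (.s 0 (.s 1 (.l 0 8000000000) (.s 1 (.l 0 10000000000) (.l 0 13000000000))) (.l 0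
  30000000000)))) (.s 1 (.l 0 20000000000) (.l 0 60000000000))

lemma h10 : chkK 12 12 5 pm_oNN mGO mC4 (2 ^ 51) 7 22
    c10 9 12 8 5 6 4 22 24 16 = true := by decide +kernel

def c11 : TrK := .s 1 (.l 0 0) (.s 2 (.s 1 (.l 0 0) (.s 0 (.s 2 (.l 0 0) (.s 1 (.l 0 0) (.s 2 (.s
  1 (.l 0 0) (.l 0 2140000000)) (.s 0 (.l 0 2200000000) (.s 1 (.l 0 3000000000) (.l 0
  3600000000)))))) (.s 2 (.s 1 (.l 0 0) (.s 2 (.l 0 0) (.s 0 (.l 0 2000000000) (.s 1 (.l 0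
  2000000000) (.s 2 (.l 0 4000000000) (.l 0 5000000000)))))) (.s 1 (.s 0 (.l 0 3000000000) (.l 0
  4400000000)) (.s 0 (.s 2 (.s 1 (.l 0 3000000000) (.l 0 4100000000)) (.l 0 5000000000)) (.s 2 (.l
  0 5500000000) (.l 0 10000000000))))))) (.s 1 (.s 0 (.s 1 (.l 0 0) (.s 2 (.l 0 0) (.s 0 (.l 0
  2000000000) (.l 0 3400000000)))) (.s 2 (.s 1 (.l 0 0) (.s 0 (.l 0 3000000000) (.l 0
  5000000000))) (.s 1 (.s 0 (.l 0 3000000000) (.l 0 5000000000)) (.s 0 (.l 0 5000000000) (.l 0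
  9000000000))))) (.s 0 (.s 2 (.s 1 (.s 0 (.l 0 2000000000) (.s 2 (.l 0 3000000000) (.l 0
  3600000000))) (.s 0 (.s 2 (.s 1 (.l 0 2000000000) (.l 0 3000000000)) (.l 0 3600000000)) (.s 2
  (.l 0 4200000000) (.l 0 9000000000)))) (.s 1 (.s 0 (.s 2 (.l 0 3000000000) (.l 0 4000000000))
  (.l 0 5000000000)) (.l 0 10000000000))) (.s 2 (.s 1 (.s 0 (.l 0 4600000000) (.l 0 7000000000))
  (.l 0 10000000000)) (.l 0 20000000000)))))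

lemma h11 : chkK 12 12 5 pm_oNN mGO mC4 (2 ^ 51) 7 22
    c11 12 15 16 5 6 4 12 14 8 = true := by decide +kernel

def c12 : TrK := .s 1 (.s 2 (.s 1 (.l 0 0) (.s 0 (.l 0 0) (.l 0 4000000000))) (.s 0 (.s 1 (.l 0 0)
  (.s 2 (.l 0 2000000000) (.s 1 (.l 0 4000000000) (.l 0 6400000000)))) (.s 1 (.s 2 (.l 0 0) (.l 0
  6700000000)) (.s 2 (.l 0 8000000000) (.l 0 11000000000))))) (.s 2 (.s 1 (.s 0 (.s 2 (.l 0 0) (.s
  1 (.l 0 0) (.l 0 5300000000))) (.s 2 (.l 0 6000000000) (.l 0 9500000000))) (.s 0 (.s 2 (.s 1 (.s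
  2 (.l 0 0) (.l 0 5000000000)) (.s 0 (.s 2 (.s 1 (.l 0 0) (.s 2 (.l 0 4000000000) (.l 0
  5500000000))) (.l 0 6200000000)) (.s 2 (.l 0 7000000000) (.l 0 10000000000)))) (.s 1 (.s 0 (.l 0
  6000000000) (.l 0 10000000000)) (.l 0 10000000000))) (.s 2 (.s 1 (.l 0 9000000000) (.l 0
  12000000000)) (.l 0 30000000000)))) (.s 0 (.s 1 (.s 2 (.s 1 (.l 0 6000000000) (.l 0 8000000000))
  (.l 0 10000000000)) (.l 0 30000000000)) (.l 0 30000000000)))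

lemma h12 : chkK 12 12 5 pm_oNN mGO mC4 (2 ^ 51) 7 22
    c12 15 18 16 5 6 4 12 14 8 = true := by decide +kernel

end Pool.Agent.EMT.TO3
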