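import Pool.Agent.EMT.TY.O3p0
import Pool.Agent.EMT.TY.O3p1
import Pool.Agent.EMT.TBridge
import Pool.Agent.EMT.TX.oNN

/-!
# EMT / TY / O3: the boxes of one inequality
-/

set_option autoImplicit false
set_option maxRecDepth 100000

namespace Pool.Agent.EMT.TO3

open KN (PM TrK chkK Pre)

def c13 : TrK := .s 1 (.s 1 (.s 0 (.l 0 0) (.s 2 (.l 0 0) (.s 1 (.l 0 0) (.s 0 (.l 3000000000 0)
  (.s 2 (.l 0 5000000000) (.l 1000000000 6000000000)))))) (.s 2 (.s 0 (.s 1 (.l 0 0) (.s 2 (.l 0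
  0) (.l 0 2600000000))) (.s 1 (.s 2 (.l 0 0) (.l 0 4200000000)) (.s 2 (.s 0 (.l 0 2000000000) (.l
  0 5000000000)) (.s 0 (.l 0 5000000000) (.l 0 8000000000))))) (.s 0 (.s 1 (.l 4000000000 0) (.s 2
  (.s 0 (.l 500000000 3000000000) (.l 0 5000000000)) (.l 40000000000 0))) (.s 1 (.s 0 (.s 2 (.l 0
  5000000000) (.l 4000000000 5000000000)) (.l 0 8400000000)) (.l 0 10000000000))))) (.s 2 (.s 1
  (.s 0 (.s 1 (.s 2 (.s 0 (.l 0 2000000000) (.l 0 3400000000)) (.s 0 (.s 1 (.l 0 3000000000) (.l 0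
  3700000000)) (.l 0 5000000000))) (.s 2 (.s 0 (.s 1 (.l 0 3000000000) (.l 0 4000000000)) (.l 0
  5000000000)) (.l 0 7000000000))) (.s 2 (.s 1 (.s 0 (.l 0 5000000000) (.l 0 10000000000)) (.l 0
  20000000000)) (.l 0 20000000000))) (.l 0 20000000000)) (.s 1 (.s 0 (.s 1 (.s 2 (.s 0 (.l 0
  5000000000) (.l 0 10000000000)) (.l 60000000000 0)) (.l 0 10000000000)) (.l 0 20000000000)) (.l
  0 20000000000)))

lemma h13 : chkK 12 12 5 pm_oNN mGO mC4 (2 ^ 51) 7 22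
    c13 12 15 16 5 6 4 14 16 8 = true := by decide +kernel

def c14 : TrK := .s 1 (.s 0 (.s 2 (.s 1 (.s 1 (.l 0 3000000000) (.s 2 (.l 0 4000000000) (.s 0 (.l
  0 5000000000) (.l 0 8000000000)))) (.s 2 (.s 1 (.l 0 6700000000) (.l 0 10000000000)) (.s 1 (.l 0
  9300000000) (.l 0 20000000000)))) (.s 1 (.s 0 (.s 1 (.s 2 (.l 0 0) (.l 3000000000 6000000000))
  (.s 2 (.l 0 8000000000) (.l 0 10000000000))) (.s 1 (.s 2 (.s 1 (.l 0 8000000000) (.l 0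
  9000000000)) (.s 0 (.s 1 (.l 2000000000 8000000000) (.l 0 10000000000)) (.s 1 (.s 2 (.s 1 (.s 0
  (.l 0 9000000000) (.l 0 11000000000)) (.l 1000000000 10000000000)) (.l 300000000000 0)) (.l 0
  20000000000)))) (.l 0 13000000000))) (.l 0 30000000000))) (.s 2 (.s 1 (.s 0 (.s 2 (.l 0
  7600000000) (.s 1 (.s 0 (.l 0 8000000000) (.l 0 10000000000)) (.l 0 14000000000))) (.s 2 (.l 0
  10700000000) (.s 1 (.l 0 13000000000) (.l 0 30000000000)))) (.l 0 30000000000)) (.s 1 (.s 0 (.s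
  1 (.s 2 (.s 0 (.s 1 (.s 2 (.l 0 9000000000) (.l 0 11600000000)) (.l 0 20000000000)) (.l 0
  13400000000)) (.s 0 (.l 0 15000000000) (.l 0 30000000000))) (.l 0 30000000000)) (.l 0
  40000000000)) (.l 0 40000000000)))) (.l 0 60000000000)

lemma h14 : chkK 12 12 5 pm_oNN mGO mC4 (2 ^ 51) 7 22
    c14 15 18 16 5 6 4 14 16 8 = true := by decide +kernel

def c15 : TrK := .s 2 (.s 0 (.s 1 (.s 2 (.s 0 (.s 1 (.l 0 5000000000) (.l 0 10000000000)) (.l 0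
  15000000000)) (.s 0 (.s 1 (.s 2 (.l 0 10000000000) (.l 0 13300000000)) (.l 0 30000000000)) (.l 0
  50000000000))) (.s 2 (.s 0 (.s 1 (.l 0 15000000000) (.l 0 40000000000)) (.l 0 50000000000)) (.l
  0 60000000000))) (.l 0 100000000000)) (.s 0 (.s 1 (.s 2 (.s 0 (.s 1 (.l 0 21000000000) (.l 0
  50000000000)) (.l 0 60000000000)) (.l 0 80000000000)) (.l 0 90000000000)) (.l 0 100000000000))

lemma h15 : chkK 12 12 5 pm_oNN mGO mC4 (2 ^ 51) 7 22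
    c15 9 12 8 5 6 4 6 8 4 = true := by decide +kernel

lemma pre : Pre 12 12 5 pm_oNN mGO mC4 (2 ^ 51) 7 22 where
  sP := by constructor <;> decide +kernel
  sG := by constructor <;> decide +kernel
  sC := by constructor <;> decide +kernel
  nPp := by decide +kernel
  nPn := by decide +kernel
  nGp := by decide +kernel
  nGn := by decide +kernel
  nCp := by decide +kernel
  nCn := by decide +kernel

def T : TrK := (TrK.s 2 (TrK.s 0 c0 c1) (TrK.s 0 (TrK.s 0 c2 (TrK.s 2 c3 (TrK.s 1 c4 (TrK.s 2 c5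
  c6)))) (TrK.s 2 (TrK.s 2 c7 (TrK.s 0 c8 (TrK.s 2 c9 c10))) (TrK.s 0 (TrK.s 2 (TrK.s 0 c11 c12)
  (TrK.s 0 c13 c14)) c15))))

lemma ok : chkK 12 12 5 pm_oNN mGO mC4 (2 ^ 51) 7 22
    T 0 3 2 5 6 4 0 2 1 = true :=
(KN.chkK_c2 (KN.chkK_c0 h0 h1) (KN.chkK_c0 (KN.chkK_c0 h2 (KN.chkK_c2 h3 (KN.chkK_c1 h4
  (KN.chkK_c2 h5 h6)))) (KN.chkK_c2 (KN.chkK_c2 h7 (KN.chkK_c0 h8 (KN.chkK_c2 h9 h10)))
  (KN.chkK_c0 (KN.chkK_c2 (KN.chkK_c0 h11 h12) (KN.chkK_c0 h13 h14)) h15))))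

theorem chk : Chk (polP false false true true tV tQN tQN) GO C4 (-1) (1 / 2) (1 / 4) (1 / 2) (-1) 1 := by
  refine chk_of ev_oNN mGO_ev mC4_ev pre (by norm_num) (by norm_num) (by norm_num) (by norm_num)
    (by norm_num) (by norm_num) ?_ ?_ ?_ ?_ ?_ ?_ ok <;> norm_num

end Pool.Agent.EMT.TO3
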