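import Pool.Agent.EMT.TBridge
import Pool.Agent.EMT.TX.oNS

/-!
# EMT / TY / O4: the boxes of one inequality
-/

set_option autoImplicit false
set_option maxRecDepth 100000

namespace Pool.Agent.EMT.TO4

open KN (PM TrK chkK Pre)

def c0 : TrK := .s 1 (.s 2 (.s 0 (.s 1 (.l 0 0) (.s 1 (.l 0 0) (.s 1 (.l 200000000 0) (.s 0 (.l
  4000000000 0) (.l 0 0))))) (.s 0 (.s 1 (.s 2 (.l 1000000000 0) (.l 0 0)) (.l 0 0)) (.s 1 (.s 2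
  (.l 9000000000 0) (.s 1 (.l 3000000000 0) (.s 0 (.l 300000000 0) (.s 2 (.l 800000000 0) (.l 0
  0))))) (.s 2 (.l 300000000 0) (.l 0 0))))) (.s 2 (.s 0 (.s 1 (.l 0 0) (.s 0 (.s 1 (.l 0 0) (.s 1
  (.s 2 (.l 400000000 0) (.l 350000000 0)) (.s 0 (.s 0 (.l 3000000000 0) (.l 900000000 0)) (.l
  300000000 0)))) (.l 0 0))) (.s 1 (.s 0 (.l 0 0) (.s 1 (.l 300000000 0) (.l 0 0))) (.l 0 0))) (.s
  0 (.s 2 (.s 1 (.l 0 0) (.s 0 (.s 1 (.l 0 0) (.s 0 (.l 800000000 0) (.l 0 0))) (.l 0 0))) (.l 0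
  0)) (.l 0 0)))) (.s 0 (.s 1 (.s 0 (.s 2 (.s 1 (.s 0 (.l 7000000000 0) (.l 2000000000 0)) (.s 0
  (.l 6000000000 0) (.l 1000000000 0))) (.s 0 (.s 2 (.s 1 (.s 0 (.l 3000000000 0) (.l 1000000000
  0)) (.l 1300000000 0)) (.s 0 (.l 1000000000 0) (.l 0 0))) (.s 2 (.l 360000000 0) (.l 0 0)))) (.s
  2 (.l 0 0) (.l 0 0))) (.s 1 (.s 0 (.s 2 (.l 1000000000 0) (.l 0 0)) (.l 0 0)) (.l 0 0))) (.s 2
  (.l 0 0) (.l 0 0)))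

lemma h0 : chkK 12 12 5 pm_oNS mGO mC0 (2 ^ 51) 7 0
    c0 0 3 4 0 1 1 0 2 2 = true := by decide +kernel

def c1 : TrK := .s 1 (.s 2 (.s 1 (.s 2 (.l 9000000000 0) (.s 0 (.s 1 (.l 3000000000 0) (.s 0 (.s 2
  (.l 800000000 0) (.l 0 0)) (.l 0 0))) (.l 0 0))) (.s 0 (.s 1 (.s 0 (.s 2 (.l 400000000 0) (.l 0
  0)) (.l 0 0)) (.l 70000000 0)) (.s 0 (.l 90000000 0) (.s 0 (.l 120000000 0) (.s 2 (.l 1000000000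
  0) (.l 100000000 0)))))) (.s 1 (.s 2 (.s 0 (.s 1 (.l 200000000 0) (.l 0 0)) (.l 0 0)) (.l 0 0))
  (.l 0 0))) (.s 0 (.s 2 (.s 2 (.s 2 (.s 0 (.l 150000000 0) (.s 1 (.l 300000000 0) (.l 0 0))) (.l
  0 0)) (.l 0 0)) (.l 0 0)) (.s 2 (.s 0 (.s 2 (.s 2 (.s 1 (.l 300000000 0) (.l 0 0)) (.l 0 0)) (.l
  0 0)) (.s 1 (.l 100000000 0) (.l 0 0))) (.l 0 0)))

lemma h1 : chkK 12 12 5 pm_oNS mGO mC0 (2 ^ 51) 7 0
    c1 3 6 4 0 1 1 0 2 2 = true := by decide +kernel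

def c2 : TrK := .s 1 (.s 2 (.s 0 (.s 2 (.s 1 (.l 0 0) (.l 0 0)) (.s 1 (.l 0 0) (.l 0 0))) (.s 2
  (.l 0 0) (.l 0 0))) (.s 0 (.l 0 0) (.s 0 (.l 0 0) (.s 1 (.l 0 0) (.l 60000000 0))))) (.s 1 (.s 0
  (.s 2 (.l 0 0) (.s 1 (.s 1 (.s 0 (.l 2000000000 0) (.s 2 (.l 0 0) (.l 900000000 0))) (.s 2 (.s 0
  (.l 2000000000 0) (.l 200000000 0)) (.l 6000000000 0))) (.s 0 (.s 2 (.l 2000000000 0) (.l
  9000000000 0)) (.s 2 (.s 2 (.l 0 0) (.l 300000000 0)) (.l 3000000000 0))))) (.s 2 (.l 0 0) (.s 1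
  (.s 0 (.s 2 (.l 0 0) (.l 400000000 0)) (.l 0 0)) (.s 0 (.s 2 (.l 0 0) (.l 400000000 0)) (.l 0
  0))))) (.s 0 (.s 2 (.l 0 0) (.s 0 (.s 2 (.s 2 (.s 0 (.l 1000000000 0) (.l 0 0)) (.l 3000000000
  0)) (.l 8000000000 0)) (.s 2 (.s 2 (.l 0 0) (.s 0 (.l 300000000 0) (.l 0 0))) (.s 0 (.l
  3000000000 0) (.l 700000000 0))))) (.s 2 (.l 0 0) (.s 0 (.s 2 (.l 0 0) (.s 0 (.l 200000000 0)
  (.l 0 0))) (.l 0 0)))))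

lemma h2 : chkK 12 12 5 pm_oNS mGO mC0 (2 ^ 51) 7 0
    c2 0 3 4 0 1 1 2 4 2 = true := by decide +kernel

def c3 : TrK := .s 1 (.s 2 (.s 1 (.s 1 (.s 2 (.l 0 0) (.s 0 (.l 0 0) (.l 0 0))) (.s 0 (.l 0 0) (.s
  2 (.l 0 0) (.l 0 0)))) (.s 0 (.l 0 0) (.l 0 0))) (.s 1 (.s 2 (.s 1 (.l 0 0) (.s 0 (.l 0 0) (.l 0
  0))) (.l 0 0)) (.s 0 (.l 80000000 0) (.l 35000000 0)))) (.s 1 (.s 2 (.s 0 (.l 0 0) (.l 0 0)) (.s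
  0 (.l 0 0) (.s 2 (.l 0 0) (.l 0 0)))) (.s 0 (.s 2 (.l 0 0) (.s 2 (.l 0 0) (.l 0 0))) (.s 2 (.l 0
  0) (.s 1 (.s 2 (.l 0 0) (.l 0 0)) (.l 0 0)))))

lemma h3 : chkK 12 12 5 pm_oNS mGO mC0 (2 ^ 51) 7 0
    c3 3 6 4 0 1 1 2 4 2 = true := by decide +kernel

lemma pre : Pre 12 12 5 pm_oNS mGO mC0 (2 ^ 51) 7 0 where
  sP := by constructor <;> decide +kernel
  sG := by constructor <;> decide +kernel
  sC := by constructor <;> decide +kernel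
  nPp := by decide +kernel
  nPn := by decide +kernel
  nGp := by decide +kernel
  nGn := by decide +kernel
  nCp := by decide +kernel
  nCn := by decide +kernel

def T : TrK := (TrK.s 2 (TrK.s 0 c0 c1) (TrK.s 0 c2 c3))

lemma ok : chkK 12 12 5 pm_oNS mGO mC0 (2 ^ 51) 7 0
    T 0 3 2 0 1 1 0 2 1 = true :=
(KN.chkK_c2 (KN.chkK_c0 h0 h1) (KN.chkK_c0 h2 h3))

theorem chk : Chk (polP false false true false tV tQN tQS) GO C0 (-1) (1 / 2) (-1) 0 (-1) 1 := by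
  refine chk_of ev_oNS mGO_ev mC0_ev pre (by norm_num) (by norm_num) (by norm_num) (by norm_num)
    (by norm_num) (by norm_num) ?_ ?_ ?_ ?_ ?_ ?_ ok <;> norm_num

end Pool.Agent.EMT.TO4
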