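import Pool.Agent.EMT.TBridge
import Pool.Agent.EMT.TX.oNS

/-!
# EMT / TY / O5: the boxes of one inequality
-/

set_option autoImplicit false
set_option maxRecDepth 100000

namespace Pool.Agent.EMT.TO5

open KN (PM TrK chkK Pre)

def c0 : TrK := .s 2 (.s 0 (.s 2 (.s 0 (.s 2 (.l 8000000000 0) (.s 1 (.l 0 0) (.s 0 (.l 5000000000
  0) (.s 2 (.l 2000000000 0) (.l 500000000 0))))) (.s 2 (.s 0 (.l 2000000000 0) (.l 500000000 0))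
  (.s 1 (.l 0 0) (.l 100000000 0)))) (.s 0 (.s 0 (.s 1 (.l 0 0) (.s 2 (.s 0 (.l 1400000000 0) (.s
  2 (.l 1000000000 0) (.l 0 0))) (.s 0 (.l 400000000 0) (.l 0 0)))) (.l 0 0)) (.l 0 0))) (.s 2 (.l
  0 0) (.l 0 0))) (.s 0 (.s 2 (.s 0 (.l 90000000 0) (.l 0 0)) (.l 0 0)) (.s 2 (.l 0 0) (.l
  40000000 0)))

lemma h0 : chkK 12 12 5 pm_oNS mGO mC3 (2 ^ 51) 7 29
    c0 0 3 4 4 5 4 0 2 1 = true := by decide +kernel

def c1 : TrK := .s 0 (.s 2 (.l 0 0) (.l 0 0)) (.s 2 (.s 0 (.l 0 0) (.s 2 (.s 0 (.s 2 (.l 200000000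
  0) (.l 0 0)) (.s 2 (.s 1 (.l 500000000 0) (.l 1700000000 0)) (.s 0 (.l 0 0) (.s 1 (.l 0 0) (.l
  400000000 0))))) (.l 0 0))) (.s 2 (.l 0 0) (.l 0 0)))

lemma h1 : chkK 12 12 5 pm_oNS mGO mC3 (2 ^ 51) 7 29
    c1 3 6 4 4 5 4 0 2 2 = true := by decide +kernel

def c2 : TrK := .s 2 (.l 0 0) (.s 1 (.l 0 0) (.s 0 (.l 0 0) (.s 2 (.l 0 0) (.s 1 (.l 0 0) (.s 0
  (.s 1 (.l 0 0) (.s 2 (.l 0 0) (.s 0 (.l 0 0) (.s 1 (.l 0 0) (.s 2 (.l 0 0) (.s 0 (.l 1000000000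
  0) (.s 1 (.l 3000000000 0) (.s 2 (.l 0 1200000000) (.l 50000000000 200000000))))))))) (.s 2 (.s
  1 (.l 0 0) (.s 0 (.l 0 700000000) (.s 2 (.s 1 (.l 0 0) (.s 0 (.l 0 0) (.l 0 1300000000))) (.s 1
  (.l 0 1000000000) (.s 0 (.l 0 1453400000) (.l 0 2000000000)))))) (.s 1 (.l 0 1000000000) (.s 0
  (.s 2 (.s 1 (.l 0 300000000) (.s 0 (.l 0 1260000000) (.l 0 1600000000))) (.l 0 2000000000)) (.l
  0 5000000000)))))))))

lemma h2 : chkK 12 12 5 pm_oNS mGO mC3 (2 ^ 51) 7 29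
    c2 6 9 8 4 5 4 2 4 2 = true := by decide +kernel

def c3 : TrK := .s 0 (.s 2 (.l 0 0) (.s 1 (.l 0 0) (.s 0 (.l 0 0) (.s 2 (.l 0 0) (.s 1 (.l 0 0)
  (.s 0 (.l 0 0) (.s 2 (.l 0 0) (.s 1 (.l 0 0) (.s 0 (.l 0 0) (.l 0 1250000000)))))))))) (.s 2 (.s
  2 (.l 0 0) (.s 0 (.l 0 0) (.s 1 (.s 0 (.l 0 0) (.s 2 (.l 0 0) (.s 0 (.l 0 0) (.s 1 (.l 0 0) (.l
  0 300000000))))) (.s 2 (.l 0 0) (.s 0 (.l 0 0) (.s 1 (.l 0 500000000) (.l 0 900000000))))))) (.s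
  1 (.s 0 (.s 1 (.l 0 0) (.l 0 100000000)) (.s 2 (.s 0 (.l 0 160000000) (.s 1 (.l 0 300000000) (.s
  2 (.l 0 500000000) (.l 0 1000000000)))) (.s 1 (.l 0 600000000) (.l 0 2000000000)))) (.s 0 (.s 2
  (.s 1 (.l 0 0) (.s 0 (.l 0 0) (.s 2 (.l 0 0) (.s 1 (.l 0 700000000) (.l 0 1070000000))))) (.s 1
  (.s 0 (.l 0 400000000) (.l 0 1000000000)) (.s 0 (.s 2 (.s 1 (.l 0 500000000) (.s 0 (.l 0
  900000000) (.l 0 1300000000))) (.s 1 (.l 0 1000000000) (.l 0 1800000000))) (.s 2 (.l 0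
  1700000000) (.l 0 4000000000))))) (.s 2 (.s 2 (.s 0 (.s 1 (.l 0 400000000) (.l 0 900000000)) (.l
  0 1400000000)) (.s 1 (.l 0 1140000000) (.l 0 3000000000))) (.l 0 6000000000)))))

lemma h3 : chkK 12 12 5 pm_oNS mGO mC3 (2 ^ 51) 7 29
    c3 9 12 8 4 5 4 4 6 4 = true := by decide +kernel

def c4 : TrK := .s 0 (.s 1 (.s 1 (.l 0 0) (.s 0 (.l 0 0) (.s 2 (.l 0 0) (.l 0 1000000000)))) (.s 2
  (.s 0 (.s 1 (.l 0 0) (.s 2 (.l 0 400000000) (.s 1 (.l 0 800000000) (.s 0 (.s 2 (.l 0 0) (.s 1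
  (.l 0 0) (.s 0 (.l 0 800000000) (.s 2 (.l 0 1200000000) (.l 0 1700000000))))) (.s 2 (.s 0 (.l 0
  1270000000) (.s 1 (.l 0 1000000000) (.s 2 (.l 0 1500000000) (.l 0 3000000000)))) (.l 0
  2000000000)))))) (.s 1 (.s 2 (.l 0 500000000) (.l 0 1500000000)) (.s 2 (.s 0 (.s 1 (.l 0
  600000000) (.s 2 (.s 0 (.l 0 0) (.l 0 1180000000)) (.s 0 (.s 1 (.l 0 700000000) (.s 2 (.l 0
  1200000000) (.l 0 1600000000))) (.l 0 1800000000)))) (.s 1 (.l 0 1300000000) (.s 2 (.s 0 (.s 2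
  (.l 0 1300000000) (.l 0 2000000000)) (.l 0 3000000000)) (.l 0 4000000000)))) (.l 0
  3000000000)))) (.s 1 (.s 0 (.l 0 1300000000) (.l 0 5000000000)) (.s 0 (.s 2 (.s 1 (.l 0
  2000000000) (.s 0 (.s 2 (.s 1 (.l 0 2000000000) (.s 0 (.l 0 1640000000) (.l 0 4000000000))) (.l
  0 4000000000)) (.l 0 6000000000))) (.l 0 7000000000)) (.l 0 10000000000))))) (.s 1 (.s 2 (.s 0
  (.s 1 (.l 0 0) (.l 0 1000000000)) (.l 0 4000000000)) (.l 0 6000000000)) (.s 2 (.s 0 (.s 1 (.l 0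
  2500000000) (.l 0 9000000000)) (.l 0 10000000000)) (.l 0 20000000000)))

lemma h4 : chkK 12 12 5 pm_oNS mGO mC3 (2 ^ 51) 7 29
    c4 9 12 8 4 5 4 6 8 4 = true := by decide +kernel

lemma pre : Pre 12 12 5 pm_oNS mGO mC3 (2 ^ 51) 7 29 where
  sP := by constructor <;> decide +kernel
  sG := by constructor <;> decide +kernel
  sC := by constructor <;> decide +kernel
  nPp := by decide +kernel
  nPn := by decide +kernel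
  nGp := by decide +kernel
  nGn := by decide +kernel
  nCp := by decide +kernel
  nCn := by decide +kernel

def T : TrK := (TrK.s 0 c0 (TrK.s 2 c1 (TrK.s 0 c2 (TrK.s 2 c3 c4))))

lemma ok : chkK 12 12 5 pm_oNS mGO mC3 (2 ^ 51) 7 29
    T 0 3 2 4 5 4 0 2 1 = true :=
(KN.chkK_c0 h0 (KN.chkK_c2 h1 (KN.chkK_c0 h2 (KN.chkK_c2 h3 h4))))

theorem chk : Chk (polP false false true false tV tQN tQS) GO C3 (-1) (1 / 2) 0 (1 / 4) (-1) 1 := by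
  refine chk_of ev_oNS mGO_ev mC3_ev pre (by norm_num) (by norm_num) (by norm_num) (by norm_num)
    (by norm_num) (by norm_num) ?_ ?_ ?_ ?_ ?_ ?_ ok <;> norm_num

end Pool.Agent.EMT.TO5
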