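import Pool.Agent.EMT.TY.O6p0
import Pool.Agent.EMT.TY.O6p1
import Pool.Agent.EMT.TY.O6p2
import Pool.Agent.EMT.TY.O6p3
import Pool.Agent.EMT.TBridge
import Pool.Agent.EMT.TX.oNS

/-!
# EMT / TY / O6: the boxes of one inequality
-/

set_option autoImplicit false
set_option maxRecDepth 100000

namespace Pool.Agent.EMT.TO6

open KN (PM TrK chkK Pre)

def c20 : TrK := .s 2 (.s 0 (.s 1 (.s 2 (.s 0 (.s 1 (.s 2 (.l 0 2600000000) (.s 0 (.l 0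
  3300000000) (.s 1 (.l 0 4000000000) (.l 0 5000000000)))) (.s 2 (.s 0 (.l 0 3700000000) (.l 0
  5000000000)) (.s 0 (.s 1 (.l 0 5000000000) (.l 0 6000000000)) (.l 0 10000000000)))) (.s 1 (.s 2
  (.s 0 (.l 0 4400000000) (.l 0 10000000000)) (.l 0 7000000000)) (.l 0 20000000000))) (.s 0 (.s 1
  (.s 2 (.s 0 (.s 1 (.l 0 4300000000) (.s 2 (.l 0 5000000000) (.l 0 6000000000))) (.s 1 (.s 0 (.l
  0 5500000000) (.l 0 7000000000)) (.l 0 10000000000))) (.s 0 (.s 1 (.s 0 (.s 1 (.l 0 5000000000)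
  (.l 0 6000000000)) (.l 0 6500000000)) (.l 0 8000000000)) (.l 0 10000000000))) (.s 2 (.l 0
  9000000000) (.l 0 20000000000))) (.l 0 20000000000))) (.s 2 (.s 0 (.s 2 (.s 1 (.s 0 (.l 0
  5700000000) (.l 0 10000000000)) (.l 0 20000000000)) (.l 0 20000000000)) (.l 0 20000000000)) (.l
  0 30000000000))) (.l 0 50000000000)) (.s 0 (.s 1 (.s 2 (.s 0 (.s 1 (.s 2 (.s 0 (.s 1 (.s 0 (.l 0
  7700000000) (.l 0 20000000000)) (.l 0 20000000000)) (.l 0 20000000000)) (.l 0 20000000000)) (.l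
  0 30000000000)) (.l 0 30000000000)) (.l 0 40000000000)) (.l 0 60000000000)) (.l 0 70000000000))

lemma h20 : chkK 12 12 5 pm_oNS mGO mC4 (2 ^ 51) 7 22
    c20 21 24 16 9 10 8 6 8 4 = true := by decide +kernel

lemma pre : Pre 12 12 5 pm_oNS mGO mC4 (2 ^ 51) 7 22 where
  sP := by constructor <;> decide +kernel
  sG := by constructor <;> decide +kernel
  sC := by constructor <;> decide +kernel
  nPp := by decide +kernel
  nPn := by decide +kernel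
  nGp := by decide +kernel
  nGn := by decide +kernel
  nCp := by decide +kernel
  nCn := by decide +kernel

def T : TrK := (TrK.s 0 c0 (TrK.s 2 c1 (TrK.s 0 c2 (TrK.s 2 (TrK.s 0 c3 c4) (TrK.s 0 (TrK.s 1 c5
  (TrK.s 2 (TrK.s 0 c6 (TrK.s 1 c7 c8)) (TrK.s 1 (TrK.s 0 c9 (TrK.s 2 c10 c11)) c12))) (TrK.s 1
  (TrK.s 2 (TrK.s 0 c13 c14) (TrK.s 0 (TrK.s 1 c15 (TrK.s 1 c16 c17)) (TrK.s 1 c18 c19)))
  c20))))))

lemma ok : chkK 12 12 5 pm_oNS mGO mC4 (2 ^ 51) 7 22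
    T 0 3 2 4 5 4 0 2 1 = true :=
(KN.chkK_c0 h0 (KN.chkK_c2 h1 (KN.chkK_c0 h2 (KN.chkK_c2 (KN.chkK_c0 h3 h4) (KN.chkK_c0
  (KN.chkK_c1 h5 (KN.chkK_c2 (KN.chkK_c0 h6 (KN.chkK_c1 h7 h8)) (KN.chkK_c1 (KN.chkK_c0 h9
  (KN.chkK_c2 h10 h11)) h12))) (KN.chkK_c1 (KN.chkK_c2 (KN.chkK_c0 h13 h14) (KN.chkK_c0
  (KN.chkK_c1 h15 (KN.chkK_c1 h16 h17)) (KN.chkK_c1 h18 h19))) h20))))))

theorem chk : Chk (polP false false true false tV tQN tQS) GO C4 (-1) (1 / 2) 0 (1 / 4) (-1) 1 := by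
  refine chk_of ev_oNS mGO_ev mC4_ev pre (by norm_num) (by norm_num) (by norm_num) (by norm_num)
    (by norm_num) (by norm_num) ?_ ?_ ?_ ?_ ?_ ?_ ok <;> norm_num

end Pool.Agent.EMT.TO6
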