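import Pool.Agent.EMT.TBridge
import Pool.Agent.EMT.TX.oSS

/-!
# EMT / TY / O8: the boxes of one inequality
-/

set_option autoImplicit false
set_option maxRecDepth 100000

namespace Pool.Agent.EMT.TO8

open KN (PM TrK chkK Pre)

def c0 : TrK := .s 2 (.l 0 0) (.s 2 (.s 1 (.l 0 0) (.s 0 (.l 0 0) (.s 2 (.l 0 130000000) (.s 1 (.s
  0 (.l 0 0) (.l 0 600000000)) (.s 0 (.l 0 600000000) (.l 0 2000000000)))))) (.s 1 (.s 0 (.l 0 0)
  (.s 0 (.l 0 0) (.s 1 (.l 0 500000000) (.l 0 3000000000)))) (.s 0 (.s 1 (.l 0 0) (.s 0 (.l 0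
  500000000) (.l 0 3000000000))) (.l 0 8000000000))))

lemma h0 : chkK 12 12 5 pm_oSS mGO mC5 (2 ^ 51) 7 8
    c0 4 5 4 4 5 4 0 2 1 = true := by decide +kernel

lemma pre : Pre 12 12 5 pm_oSS mGO mC5 (2 ^ 51) 7 8 where
  sP := by constructor <;> decide +kernel
  sG := by constructor <;> decide +kernel
  sC := by constructor <;> decide +kernel
  nPp := by decide +kernel
  nPn := by decide +kernel
  nGp := by decide +kernel
  nGn := by decide +kernel
  nCp := by decide +kernel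
  nCn := by decide +kernel

def T : TrK := c0

lemma ok : chkK 12 12 5 pm_oSS mGO mC5 (2 ^ 51) 7 8
    T 4 5 4 4 5 4 0 2 1 = true :=
h0

theorem chk : Chk (polP false false false false tV tQS tQS) GO C5 0 (1 / 4) 0 (1 / 4) (-1) 1 := by
  refine chk_of ev_oSS mGO_ev mC5_ev pre (by norm_num) (by norm_num) (by norm_num) (by norm_num)
    (by norm_num) (by norm_num) ?_ ?_ ?_ ?_ ?_ ?_ ok <;> norm_num

end Pool.Agent.EMT.TO8
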