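import Pool.Agent.EMT.TBridge
import Pool.Agent.EMT.TX.sNN

/-!
# EMT / TY / S1p1: boxes of one inequality
-/

set_option autoImplicit false
set_option maxRecDepth 100000

namespace Pool.Agent.EMT.TS1

open KN (PM TrK chkK Pre)

def c6 : TrK := .s 1 (.s 2 (.s 1 (.l 0 0) (.s 0 (.l 0 0) (.s 2 (.l 0 0) (.l 0 0)))) (.s 1 (.s 2
  (.s 1 (.s 0 (.s 2 (.l 0 0) (.s 1 (.l 270000000 0) (.s 0 (.l 800000000 0) (.l 0 0)))) (.l 0 0))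
  (.s 0 (.s 2 (.l 300000000 0) (.s 0 (.s 0 (.l 800000000 0) (.l 0 0)) (.l 0 0))) (.l 0 0))) (.s 0
  (.s 1 (.s 0 (.s 2 (.l 500000000 0) (.l 200000000 0)) (.s 2 (.l 0 0) (.l 0 0))) (.s 0 (.s 2 (.s 0
  (.l 700000000 0) (.l 0 0)) (.l 0 0)) (.l 0 0))) (.l 0 0))) (.s 0 (.s 2 (.s 0 (.l 200000000 0)
  (.l 0 0)) (.l 0 0)) (.s 2 (.l 0 0) (.l 0 0))))) (.s 2 (.s 0 (.s 2 (.s 0 (.l 1100000000 0) (.s 1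
  (.s 2 (.l 0 0) (.l 0 0)) (.s 2 (.l 0 0) (.l 0 0)))) (.l 0 0)) (.s 2 (.s 1 (.s 2 (.l 0 0) (.l 0
  0)) (.s 2 (.l 0 0) (.l 0 0))) (.l 0 0))) (.s 0 (.s 1 (.s 0 (.s 2 (.l 0 0) (.l 0 0)) (.s 2 (.l 0
  0) (.l 0 0))) (.s 1 (.s 0 (.s 2 (.l 0 0) (.l 0 0)) (.s 2 (.l 0 0) (.l 0 0))) (.s 2 (.l 0 0) (.s
  0 (.l 0 0) (.l 0 0))))) (.s 1 (.s 2 (.l 0 0) (.l 0 0)) (.s 2 (.l 0 0) (.l 0 0)))))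

lemma h6 : chkK 12 12 5 pm_sNN mGS mC0 (2 ^ 58) 14 0
    c6 0 3 4 3 6 4 0 3 4 = true := by decide +kernel

def c7 : TrK := .s 1 (.s 2 (.l 0 0) (.s 2 (.l 0 0) (.s 2 (.l 0 0) (.s 0 (.s 2 (.l 0 0) (.s 1 (.s 0
  (.s 2 (.l 0 0) (.s 2 (.l 0 0) (.s 0 (.s 2 (.l 0 0) (.s 0 (.l 1000000000 0) (.l 0 0))) (.l 0
  0)))) (.l 0 0)) (.s 0 (.s 2 (.l 0 0) (.s 0 (.l 900000000 0) (.l 0 0))) (.l 0 0)))) (.l 0 0)))))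
  (.s 2 (.l 0 0) (.s 0 (.s 1 (.s 2 (.l 0 0) (.s 0 (.l 2000000000 0) (.s 2 (.l 0 0) (.s 2 (.l 0 0)
  (.s 2 (.l 0 0) (.s 2 (.l 0 0) (.s 2 (.l 0 0) (.s 1 (.s 2 (.l 0 0) (.s 0 (.l 400000000 0) (.l 0
  0))) (.s 0 (.l 1000000000 0) (.s 2 (.l 0 0) (.s 0 (.l 700000000 0) (.l 0 0)))))))))))) (.l
  1230000000 0)) (.s 2 (.l 0 0) (.s 2 (.l 0 0) (.s 2 (.l 0 0) (.s 2 (.l 0 0) (.s 1 (.l 0 0) (.s 2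
  (.l 0 0) (.s 1 (.l 70000000 0) (.s 0 (.l 200000000 0) (.l 0 0)))))))))))

lemma h7 : chkK 12 12 5 pm_sNN mGS mC0 (2 ^ 58) 14 0
    c7 0 3 4 3 6 4 3 6 4 = true := by decide +kernel

def c8 : TrK := .s 1 (.s 2 (.s 0 (.l 0 0) (.s 1 (.l 0 0) (.s 2 (.l 0 0) (.l 0 0)))) (.s 0 (.s 2
  (.s 0 (.s 1 (.s 2 (.l 0 0) (.s 0 (.l 270000000 0) (.s 1 (.l 800000000 0) (.l 0 0)))) (.l 0 0))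
  (.s 1 (.s 2 (.l 300000000 0) (.s 1 (.s 1 (.l 800000000 0) (.l 0 0)) (.l 0 0))) (.l 0 0))) (.s 1
  (.s 0 (.s 1 (.s 2 (.l 500000000 0) (.l 200000000 0)) (.s 2 (.l 0 0) (.l 0 0))) (.s 1 (.s 2 (.s 1
  (.l 700000000 0) (.l 0 0)) (.l 0 0)) (.l 0 0))) (.l 0 0))) (.s 1 (.s 2 (.s 1 (.l 200000000 0)
  (.l 0 0)) (.l 0 0)) (.s 2 (.l 0 0) (.l 0 0))))) (.s 2 (.s 1 (.s 2 (.s 0 (.l 0 0) (.l 0 0)) (.l 0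
  0)) (.s 2 (.s 2 (.l 0 0) (.l 0 0)) (.l 0 0))) (.s 1 (.s 2 (.l 0 0) (.l 0 0)) (.s 2 (.l 0 0) (.l
  0 0))))

lemma h8 : chkK 12 12 5 pm_sNN mGS mC0 (2 ^ 58) 14 0
    c8 6 9 8 0 3 2 0 3 4 = true := by decide +kernel

def c9 : TrK := .s 2 (.s 1 (.s 2 (.s 1 (.l 1100000000 0) (.s 0 (.s 2 (.l 0 0) (.l 0 0)) (.s 2 (.l
  0 0) (.l 0 0)))) (.l 0 0)) (.s 2 (.s 0 (.s 2 (.l 0 0) (.l 0 0)) (.s 2 (.l 0 0) (.l 0 0))) (.l 0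
  0))) (.s 1 (.s 0 (.s 1 (.s 2 (.l 0 0) (.l 0 0)) (.s 2 (.l 0 0) (.l 0 0))) (.s 0 (.s 1 (.s 2 (.l
  0 0) (.l 0 0)) (.s 2 (.l 0 0) (.l 0 0))) (.s 2 (.l 0 0) (.s 1 (.l 0 0) (.l 0 0))))) (.s 0 (.s 2
  (.l 0 0) (.l 0 0)) (.s 2 (.l 0 0) (.l 0 0))))

lemma h9 : chkK 12 12 5 pm_sNN mGS mC0 (2 ^ 58) 14 0
    c9 9 12 8 0 3 4 0 3 4 = true := by decide +kernel

def c10 : TrK := .s 2 (.s 2 (.s 2 (.l 0 0) (.l 0 0)) (.l 0 0)) (.s 2 (.l 0 0) (.l 0 0))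

lemma h10 : chkK 12 12 5 pm_sNN mGS mC0 (2 ^ 58) 14 0
    c10 9 12 8 6 9 8 0 3 4 = true := by decide +kernel

end Pool.Agent.EMT.TS1
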