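import Pool.Agent.EMT.TY.S1p0
import Pool.Agent.EMT.TY.S1p1
import Pool.Agent.EMT.TBridge
import Pool.Agent.EMT.TX.sNN

/-!
# EMT / TY / S1: the boxes of one inequality
-/

set_option autoImplicit false
set_option maxRecDepth 100000

namespace Pool.Agent.EMT.TS1

open KN (PM TrK chkK Pre)

def c11 : TrK := .s 2 (.s 0 (.s 1 (.s 2 (.l 0 0) (.l 0 0)) (.s 2 (.s 1 (.l 0 0) (.l 1000000000 0))
  (.s 0 (.l 0 0) (.s 1 (.l 0 0) (.s 0 (.l 10000000 0) (.s 1 (.l 200000000 0) (.s 2 (.l 1000000000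
  0) (.l 313000000 0)))))))) (.s 1 (.s 2 (.s 0 (.l 0 0) (.l 1000000000 0)) (.s 1 (.l 0 0) (.s 0
  (.l 0 0) (.s 1 (.l 10000000 0) (.s 0 (.l 200000000 0) (.s 2 (.l 1000000000 0) (.l 313000000
  0))))))) (.s 2 (.l 20000000000 0) (.s 0 (.s 1 (.s 0 (.l 200000000 0) (.s 1 (.l 200000000 0) (.s
  2 (.l 900000000 0) (.l 300000000 0)))) (.s 2 (.s 1 (.s 0 (.l 900000000 0) (.l 3000000000 0)) (.l
  5000000000 0)) (.s 1 (.s 0 (.l 300000000 0) (.s 2 (.l 900000000 0) (.l 300000000 0))) (.s 0 (.s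
  2 (.l 900000000 0) (.l 400000000 0)) (.s 2 (.l 3000000000 0) (.l 1000000000 0)))))) (.s 1 (.s 2
  (.s 0 (.s 1 (.l 900000000 0) (.l 3000000000 0)) (.l 5000000000 0)) (.s 0 (.s 1 (.l 300000000 0)
  (.s 2 (.l 900000000 0) (.l 300000000 0))) (.s 1 (.s 2 (.l 900000000 0) (.l 400000000 0)) (.s 2
  (.l 3000000000 0) (.l 1000000000 0))))) (.s 2 (.l 9000000000 0) (.s 0 (.s 1 (.s 2 (.l 3000000000
  0) (.l 1000000000 0)) (.l 4000000000 0)) (.l 5000000000 0)))))))) (.s 2 (.s 0 (.l 0 0) (.s 1 (.l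
  0 0) (.s 2 (.s 0 (.l 0 0) (.s 1 (.l 0 0) (.s 2 (.s 0 (.s 1 (.l 0 0) (.l 1000000000 0)) (.s 1 (.l
  1000000000 0) (.l 3000000000 0))) (.l 470000000 0)))) (.l 0 0)))) (.l 0 0))

lemma h11 : chkK 12 12 5 pm_sNN mGS mC0 (2 ^ 58) 14 0
    c11 9 12 8 9 12 8 0 3 4 = true := by decide +kernel

def c12 : TrK := .s 1 (.s 0 (.s 2 (.l 0 0) (.s 2 (.l 0 0) (.s 2 (.l 0 0) (.s 1 (.s 2 (.l 0 0) (.s
  0 (.s 1 (.s 2 (.l 0 0) (.s 2 (.l 0 0) (.s 1 (.s 2 (.l 0 0) (.s 1 (.l 1000000000 0) (.l 0 0)))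
  (.l 0 0)))) (.l 0 0)) (.s 1 (.s 2 (.l 0 0) (.s 1 (.l 900000000 0) (.l 0 0))) (.l 0 0)))) (.l 0
  0))))) (.s 2 (.l 0 0) (.s 1 (.s 0 (.s 2 (.l 0 0) (.s 1 (.l 2000000000 0) (.s 2 (.l 0 0) (.s 2
  (.l 0 0) (.s 2 (.l 0 0) (.s 2 (.l 0 0) (.s 2 (.l 0 0) (.s 0 (.s 2 (.l 0 0) (.s 1 (.l 400000000
  0) (.l 0 0))) (.s 1 (.l 1000000000 0) (.s 2 (.l 0 0) (.s 1 (.l 700000000 0) (.l 0 0))))))))))))
  (.l 1230000000 0)) (.s 2 (.l 0 0) (.s 2 (.l 0 0) (.s 2 (.l 0 0) (.s 2 (.l 0 0) (.s 0 (.l 0 0)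
  (.s 2 (.l 0 0) (.s 0 (.l 70000000 0) (.s 1 (.l 200000000 0) (.l 0 0)))))))))))) (.s 2 (.l 0 0)
  (.s 2 (.l 0 0) (.s 0 (.l 0 0) (.s 2 (.l 0 0) (.s 1 (.l 0 0) (.l 0 0))))))

lemma h12 : chkK 12 12 5 pm_sNN mGS mC0 (2 ^ 58) 14 0
    c12 3 6 4 0 3 2 3 6 4 = true := by decide +kernel

lemma pre : Pre 12 12 5 pm_sNN mGS mC0 (2 ^ 58) 14 0 where
  sP := by constructor <;> decide +kernel
  sG := by constructor <;> decide +kernel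
  sC := by constructor <;> decide +kernel
  nPp := by decide +kernel
  nPn := by decide +kernel
  nGp := by decide +kernel
  nGn := by decide +kernel
  nCp := by decide +kernel
  nCn := by decide +kernel

def T : TrK := (TrK.s 0 (TrK.s 1 (TrK.s 2 c0 (TrK.s 2 c1 (TrK.s 0 (TrK.s 1 (TrK.s 0 c2 c3) c4)
  c5))) (TrK.s 2 c6 c7)) (TrK.s 2 (TrK.s 0 c8 (TrK.s 1 c9 (TrK.s 1 c10 c11))) c12))

lemma ok : chkK 12 12 5 pm_sNN mGS mC0 (2 ^ 58) 14 0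
    T 0 3 2 0 3 2 0 3 2 = true :=
(KN.chkK_c0 (KN.chkK_c1 (KN.chkK_c2 h0 (KN.chkK_c2 h1 (KN.chkK_c0 (KN.chkK_c1 (KN.chkK_c0 h2 h3)
  h4) h5))) (KN.chkK_c2 h6 h7)) (KN.chkK_c2 (KN.chkK_c0 h8 (KN.chkK_c1 h9 (KN.chkK_c1 h10 h11)))
  h12))

theorem chk : Chk (polP true true true true tV tGN tGN) GS C0 (-1) (1 / 2) (-1) (1 / 2) (-1) (1 / 2) := by
  refine chk_of ev_sNN mGS_ev mC0_ev pre (by norm_num) (by norm_num) (by norm_num) (by norm_num)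
    (by norm_num) (by norm_num) ?_ ?_ ?_ ?_ ?_ ?_ ok <;> norm_num

end Pool.Agent.EMT.TS1
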