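import Pool.Agent.EMT.TY.S2ap0
import Pool.Agent.EMT.TBridge
import Pool.Agent.EMT.TX.sNS

/-!
# EMT / TY / S2a: the boxes of one inequality
-/

set_option autoImplicit false
set_option maxRecDepth 100000

namespace Pool.Agent.EMT.TS2a

open KN (PM TrK chkK Pre)

def c4 : TrK := .s 2 (.s 0 (.s 1 (.s 2 (.l 0 0) (.l 0 0)) (.s 0 (.s 1 (.l 0 0) (.l 0 0)) (.l 0
  0))) (.l 0 0)) (.s 0 (.s 2 (.l 0 0) (.s 0 (.s 1 (.l 0 0) (.l 0 0)) (.s 2 (.l 0 0) (.s 2 (.l 0 0)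
  (.s 1 (.l 0 0) (.l 0 0)))))) (.s 2 (.l 0 0) (.s 2 (.l 0 0) (.s 0 (.s 2 (.l 0 0) (.s 2 (.l 0 0)
  (.s 1 (.l 0 0) (.l 0 0)))) (.s 2 (.l 0 0) (.s 1 (.l 0 0) (.l 0 0)))))))

lemma h4 : chkK 12 12 5 pm_sNS mGS mC0 (2 ^ 58) 14 0
    c4 0 5 4 5 10 8 3 6 4 = true := by decide +kernel

lemma pre : Pre 12 12 5 pm_sNS mGS mC0 (2 ^ 58) 14 0 where
  sP := by constructor <;> decide +kernel
  sG := by constructor <;> decide +kernel
  sC := by constructor <;> decide +kernel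
  nPp := by decide +kernel
  nPn := by decide +kernel
  nGp := by decide +kernel
  nGn := by decide +kernel
  nCp := by decide +kernel
  nCn := by decide +kernel

def T : TrK := (TrK.s 2 (TrK.s 0 c0 c1) (TrK.s 1 (TrK.s 2 c2 c3) c4))

lemma ok : chkK 12 12 5 pm_sNS mGS mC0 (2 ^ 58) 14 0
    T 0 5 4 0 5 4 0 3 2 = true :=
(KN.chkK_c2 (KN.chkK_c0 h0 h1) (KN.chkK_c1 (KN.chkK_c2 h2 h3) h4))

theorem chk : Chk (polP true true true false tV tGN tGS) GS C0 (-1) (1 / 4) (-1) (1 / 4) (-1) (1 / 2) := by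
  refine chk_of ev_sNS mGS_ev mC0_ev pre (by norm_num) (by norm_num) (by norm_num) (by norm_num)
    (by norm_num) (by norm_num) ?_ ?_ ?_ ?_ ?_ ?_ ok <;> norm_num

end Pool.Agent.EMT.TS2a
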