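import Pool.Agent.EMT.TBridge
import Pool.Agent.EMT.TX.sNS

/-!
# EMT / TY / S2b: the boxes of one inequality
-/

set_option autoImplicit false
set_option maxRecDepth 100000

namespace Pool.Agent.EMT.TS2b

open KN (PM TrK chkK Pre)

def c0 : TrK := .s 1 (.s 2 (.s 1 (.s 2 (.s 1 (.l 0 0) (.s 2 (.s 2 (.l 0 0) (.l 0 0)) (.l 0 0)))
  (.s 1 (.s 2 (.l 0 0) (.l 0 0)) (.s 2 (.l 0 0) (.s 2 (.l 0 0) (.l 0 0))))) (.s 2 (.s 2 (.s 2 (.s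
  0 (.l 0 0) (.l 0 0)) (.l 0 0)) (.l 0 0)) (.s 0 (.s 2 (.l 0 0) (.l 0 0)) (.s 2 (.l 0 0) (.l 0
  0))))) (.s 1 (.s 1 (.l 400000000 0) (.s 2 (.l 0 0) (.l 0 3000000000))) (.s 2 (.l 0 0) (.l 0
  3100000000)))) (.s 2 (.s 2 (.s 2 (.l 50000000 0) (.s 0 (.l 0 0) (.s 1 (.l 0 0) (.l 0 0)))) (.s 1
  (.s 0 (.s 2 (.l 0 0) (.l 0 0)) (.s 2 (.l 0 0) (.l 0 0))) (.s 1 (.s 2 (.l 0 0) (.l 0 0)) (.s 2
  (.l 0 0) (.l 0 0))))) (.s 2 (.s 1 (.l 0 0) (.l 0 0)) (.s 2 (.s 1 (.s 0 (.l 0 0) (.s 0 (.l 0 0)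
  (.s 1 (.l 0 0) (.s 2 (.l 0 0) (.l 0 2000000000))))) (.s 0 (.l 0 0) (.s 1 (.s 0 (.l 0 0) (.s 2
  (.l 0 0) (.s 0 (.l 0 0) (.s 2 (.l 0 1000000000) (.l 0 3000000000))))) (.s 0 (.l 0 0) (.s 1 (.s 2
  (.l 0 0) (.l 0 1300000000)) (.l 0 0)))))) (.s 2 (.l 0 5000000000) (.s 1 (.l 0 8000000000) (.l 0
  7000000000))))))

lemma h0 : chkK 12 12 5 pm_sNS mGS mC1 (2 ^ 58) 14 16
    c0 5 6 4 0 5 4 0 3 2 = true := by decide +kernel

lemma pre : Pre 12 12 5 pm_sNS mGS mC1 (2 ^ 58) 14 16 where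
  sP := by constructor <;> decide +kernel
  sG := by constructor <;> decide +kernel
  sC := by constructor <;> decide +kernel
  nPp := by decide +kernel
  nPn := by decide +kernel
  nGp := by decide +kernel
  nGn := by decide +kernel
  nCp := by decide +kernel
  nCn := by decide +kernel

def T : TrK := c0

lemma ok : chkK 12 12 5 pm_sNS mGS mC1 (2 ^ 58) 14 16
    T 5 6 4 0 5 4 0 3 2 = true :=
h0

theorem chk : Chk (polP true true true false tV tGN tGS) GS C1 (1 / 4) (1 / 2) (-1) (1 / 4) (-1) (1 / 2) := by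
  refine chk_of ev_sNS mGS_ev mC1_ev pre (by norm_num) (by norm_num) (by norm_num) (by norm_num)
    (by norm_num) (by norm_num) ?_ ?_ ?_ ?_ ?_ ?_ ok <;> norm_num

end Pool.Agent.EMT.TS2b
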