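import Pool.Agent.EMT.TY.S3p0
import Pool.Agent.EMT.TBridge
import Pool.Agent.EMT.TX.sSS

/-!
# EMT / TY / S3: the boxes of one inequality
-/

set_option autoImplicit false
set_option maxRecDepth 100000

namespace Pool.Agent.EMT.TS3

open KN (PM TrK chkK Pre)

def c5 : TrK := .s 2 (.s 1 (.s 0 (.s 1 (.s 2 (.s 1 (.s 0 (.l 3000000000 0) (.l 0 0)) (.l 0 0)) (.l
  0 0)) (.l 0 0)) (.s 1 (.s 0 (.s 2 (.s 1 (.l 100000000 0) (.l 0 0)) (.l 0 0)) (.l 0 0)) (.s 2 (.s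
  2 (.l 0 0) (.l 0 0)) (.l 0 0)))) (.s 2 (.s 1 (.s 0 (.l 0 0) (.l 0 0)) (.l 0 0)) (.l 0 0))) (.s 1
  (.s 2 (.l 0 0) (.s 0 (.l 60000000 0) (.s 2 (.l 0 0) (.s 1 (.l 0 0) (.l 0 0))))) (.s 2 (.l 0 0)
  (.s 2 (.l 0 0) (.s 2 (.l 0 0) (.s 2 (.l 0 0) (.s 1 (.l 0 0) (.s 0 (.l 0 0) (.l 0 0))))))))

lemma h5 : chkK 12 12 5 pm_sSS mGS mC0 (2 ^ 58) 14 0
    c5 5 10 8 0 5 4 3 6 4 = true := by decide +kernel

lemma pre : Pre 12 12 5 pm_sSS mGS mC0 (2 ^ 58) 14 0 where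
  sP := by constructor <;> decide +kernel
  sG := by constructor <;> decide +kernel
  sC := by constructor <;> decide +kernel
  nPp := by decide +kernel
  nPn := by decide +kernel
  nGp := by decide +kernel
  nGn := by decide +kernel
  nCp := by decide +kernel
  nCn := by decide +kernel

def T : TrK := (TrK.s 2 (TrK.s 1 c0 c1) (TrK.s 0 (TrK.s 1 (TrK.s 0 c2 c3) c4) c5))

lemma ok : chkK 12 12 5 pm_sSS mGS mC0 (2 ^ 58) 14 0
    T 0 5 4 0 5 4 0 3 2 = true :=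
(KN.chkK_c2 (KN.chkK_c1 h0 h1) (KN.chkK_c0 (KN.chkK_c1 (KN.chkK_c0 h2 h3) h4) h5))

theorem chk : Chk (polP true true false false tV tGS tGS) GS C0 (-1) (1 / 4) (-1) (1 / 4) (-1) (1 / 2) := by
  refine chk_of ev_sSS mGS_ev mC0_ev pre (by norm_num) (by norm_num) (by norm_num) (by norm_num)
    (by norm_num) (by norm_num) ?_ ?_ ?_ ?_ ?_ ?_ ok <;> norm_num

end Pool.Agent.EMT.TS3
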