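import Pool.Agent.EMT.TBridge
import Pool.Agent.EMT.TX.oNN

/-!
# EMT / TY / O1p0: boxes of one inequality
-/

set_option autoImplicit false
set_option maxRecDepth 100000

namespace Pool.Agent.EMT.TO1

open KN (PM TrK chkK Pre)

def c0 : TrK := .s 0 (.s 1 (.s 2 (.l 0 0) (.s 2 (.l 0 0) (.l 0 0))) (.s 2 (.l 100000000 0) (.s 1
  (.s 2 (.s 0 (.l 240000000 0) (.l 0 0)) (.l 60000000 0)) (.s 0 (.s 2 (.s 0 (.l 400000000 0) (.l 0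
  0)) (.s 0 (.l 200000000 0) (.l 0 0))) (.l 0 0))))) (.s 1 (.s 2 (.l 100000000 0) (.s 0 (.s 2 (.s
  1 (.l 240000000 0) (.l 0 0)) (.l 60000000 0)) (.s 1 (.s 2 (.s 1 (.l 400000000 0) (.l 0 0)) (.s 1
  (.l 200000000 0) (.l 0 0))) (.l 0 0)))) (.s 2 (.l 0 0) (.l 0 0)))

lemma h0 : chkK 12 12 5 pm_oNN mGO mC2 (2 ^ 51) 7 6
    c0 0 3 4 0 3 4 0 2 2 = true := by decide +kernel

def c1 : TrK := .s 0 (.s 2 (.s 1 (.l 0 0) (.s 0 (.s 2 (.l 20000000000 0) (.s 0 (.l 10000000000 0)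
  (.s 1 (.l 500000000 0) (.s 2 (.l 6000000000 0) (.s 0 (.l 3000000000 0) (.s 1 (.l 600000000 0)
  (.l 1000000000 0))))))) (.s 2 (.s 1 (.l 1000000000 0) (.l 6000000000 0)) (.s 1 (.l 0 0) (.s 0
  (.s 2 (.l 1200000000 0) (.s 1 (.l 0 0) (.s 0 (.l 500000000 0) (.l 0 0)))) (.l 100000000 0))))))
  (.s 0 (.s 2 (.s 1 (.l 0 0) (.s 0 (.s 2 (.s 1 (.l 1000000000 0) (.s 0 (.l 5000000000 0) (.l
  1600000000 0))) (.s 1 (.l 350000000 0) (.s 0 (.l 2000000000 0) (.l 400000000 0)))) (.s 2 (.s 1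
  (.l 0 0) (.s 0 (.s 2 (.l 800000000 0) (.l 300000000 0)) (.l 0 0))) (.l 0 0)))) (.s 1 (.l 0 0)
  (.s 0 (.s 1 (.l 0 0) (.s 0 (.l 400000000 0) (.l 0 0))) (.l 0 0)))) (.l 0 0))) (.s 2 (.s 0 (.s 1
  (.l 0 0) (.l 50000000 0)) (.s 1 (.l 0 0) (.l 40000000 0))) (.l 0 0))

lemma h1 : chkK 12 12 5 pm_oNN mGO mC2 (2 ^ 51) 7 6
    c1 0 3 4 3 6 4 0 2 2 = true := by decide +kernel

def c2 : TrK := .s 1 (.s 2 (.s 0 (.l 0 0) (.s 1 (.s 2 (.l 20000000000 0) (.s 1 (.l 10000000000 0)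
  (.s 0 (.l 500000000 0) (.s 2 (.l 6000000000 0) (.s 1 (.l 3000000000 0) (.s 0 (.l 600000000 0)
  (.l 1000000000 0))))))) (.s 2 (.s 0 (.l 1000000000 0) (.l 6000000000 0)) (.s 0 (.l 0 0) (.s 1
  (.s 2 (.l 1200000000 0) (.s 0 (.l 0 0) (.s 1 (.l 500000000 0) (.l 0 0)))) (.l 100000000 0))))))
  (.s 1 (.s 2 (.s 0 (.l 0 0) (.s 1 (.s 2 (.s 0 (.l 1000000000 0) (.s 1 (.l 5000000000 0) (.l
  1600000000 0))) (.s 0 (.l 350000000 0) (.s 1 (.l 2000000000 0) (.l 400000000 0)))) (.s 2 (.s 0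
  (.l 0 0) (.s 1 (.s 2 (.l 800000000 0) (.l 300000000 0)) (.l 0 0))) (.l 0 0)))) (.s 0 (.l 0 0)
  (.s 1 (.s 0 (.l 0 0) (.s 1 (.l 400000000 0) (.l 0 0))) (.l 0 0)))) (.l 0 0))) (.s 2 (.s 1 (.s 0
  (.l 0 0) (.l 50000000 0)) (.s 0 (.l 0 0) (.l 40000000 0))) (.l 0 0))

lemma h2 : chkK 12 12 5 pm_oNN mGO mC2 (2 ^ 51) 7 6
    c2 3 6 4 0 3 4 0 2 2 = true := by decide +kernel

def c3 : TrK := .s 2 (.s 1 (.s 0 (.l 0 0) (.s 0 (.s 2 (.s 2 (.l 500000000 0) (.l 0 0)) (.l 0 0))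
  (.s 2 (.s 1 (.s 2 (.l 1000000000 0) (.l 400000000 0)) (.s 0 (.s 2 (.l 2000000000 0) (.l 0 0))
  (.s 2 (.l 4000000000 0) (.l 1400000000 0)))) (.l 0 0)))) (.s 0 (.s 1 (.s 2 (.s 2 (.l 500000000
  0) (.l 0 0)) (.l 0 0)) (.s 2 (.s 0 (.s 2 (.l 1000000000 0) (.l 400000000 0)) (.s 1 (.s 2 (.l
  2000000000 0) (.l 0 0)) (.s 2 (.l 4000000000 0) (.l 1400000000 0)))) (.l 0 0))) (.s 2 (.s 1 (.s
  0 (.s 2 (.s 2 (.l 2000000000 0) (.l 400000000 0)) (.l 0 0)) (.s 0 (.s 2 (.l 5000000000 0) (.l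
  1000000000 0)) (.s 2 (.l 9000000000 0) (.l 3400000000 0)))) (.s 0 (.s 1 (.s 2 (.l 5000000000 0)
  (.l 1000000000 0)) (.s 2 (.l 9000000000 0) (.l 3400000000 0))) (.s 2 (.l 10000000000 0) (.l
  6000000000 0)))) (.s 1 (.s 0 (.l 0 0) (.s 0 (.l 0 0) (.s 2 (.s 0 (.l 0 0) (.s 1 (.l 1100000000
  0) (.s 2 (.l 3000000000 0) (.l 1400000000 0)))) (.l 0 0)))) (.s 0 (.s 1 (.l 0 0) (.s 2 (.s 1 (.l
  0 0) (.s 0 (.l 1100000000 0) (.s 2 (.l 3000000000 0) (.l 1400000000 0)))) (.l 0 0))) (.s 2 (.s 1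
  (.s 0 (.l 0 0) (.l 3000000000 0)) (.s 0 (.l 3000000000 0) (.l 5000000000 0))) (.s 1 (.l
  1300000000 0) (.s 0 (.l 1300000000 0) (.s 1 (.s 0 (.l 0 0) (.s 2 (.l 3000000000 0) (.l 0 0)))
  (.s 2 (.l 3000000000 0) (.l 1700000000 0))))))))))) (.l 0 0)

lemma h3 : chkK 12 12 5 pm_oNN mGO mC2 (2 ^ 51) 7 6
    c3 3 6 4 3 6 4 0 2 4 = true := by decide +kernel

def c4 : TrK := .s 2 (.s 0 (.l 0 0) (.s 1 (.l 0 0) (.l 0 0))) (.l 0 0)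

lemma h4 : chkK 12 12 5 pm_oNN mGO mC2 (2 ^ 51) 7 6
    c4 3 6 4 3 6 4 2 4 4 = true := by decide +kernel

def c5 : TrK := .s 0 (.s 1 (.s 2 (.l 0 0) (.l 0 0)) (.s 1 (.s 2 (.l 60000000 0) (.s 0 (.s 1 (.l
  100000000 0) (.s 2 (.l 240000000 0) (.s 1 (.l 200000000 0) (.s 0 (.l 800000000 0) (.l 0 0)))))
  (.l 0 0))) (.s 0 (.s 2 (.l 0 0) (.s 0 (.l 700000000 0) (.l 0 0))) (.l 0 0)))) (.s 1 (.s 0 (.s 2
  (.l 60000000 0) (.s 1 (.s 0 (.l 100000000 0) (.s 2 (.l 240000000 0) (.s 0 (.l 200000000 0) (.s 1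
  (.l 800000000 0) (.l 0 0))))) (.l 0 0))) (.s 1 (.s 2 (.l 0 0) (.s 1 (.l 700000000 0) (.l 0 0)))
  (.l 0 0))) (.l 0 0))

lemma h5 : chkK 12 12 5 pm_oNN mGO mC2 (2 ^ 51) 7 6
    c5 0 3 4 0 3 4 4 6 4 = true := by decide +kernel

end Pool.Agent.EMT.TO1
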