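import Pool.Agent.EMT.TBridge
import Pool.Agent.EMT.TX.oNN

/-!
# EMT / TY / O3p0: boxes of one inequality
-/

set_option autoImplicit false
set_option maxRecDepth 100000

namespace Pool.Agent.EMT.TO3

open KN (PM TrK chkK Pre)

def c0 : TrK := .s 0 (.s 2 (.s 0 (.s 2 (.l 20000000000 0) (.s 0 (.l 10000000000 0) (.s 2 (.l
  6000000000 0) (.s 1 (.l 700000000 0) (.s 0 (.l 3000000000 0) (.l 1000000000 0)))))) (.s 2 (.l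
  5000000000 0) (.s 0 (.s 2 (.s 1 (.l 400000000 0) (.l 2000000000 0)) (.s 1 (.l 0 0) (.s 0 (.l
  500000000 0) (.l 0 0)))) (.l 100000000 0)))) (.s 0 (.s 2 (.s 0 (.s 2 (.s 0 (.l 5000000000 0) (.l
  1460000000 0)) (.s 0 (.l 2000000000 0) (.l 400000000 0))) (.s 2 (.s 0 (.s 1 (.l 200000000 0) (.s
  2 (.l 1000000000 0) (.l 300000000 0))) (.l 0 0)) (.l 0 0))) (.s 0 (.s 1 (.l 80000000 0) (.s 0
  (.l 400000000 0) (.l 0 0))) (.l 0 0))) (.l 0 0))) (.s 2 (.l 50000000 0) (.l 0 0))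

lemma h0 : chkK 12 12 5 pm_oNN mGO mC4 (2 ^ 51) 7 22
    c0 0 3 4 5 6 4 0 2 2 = true := by decide +kernel

def c1 : TrK := .s 2 (.s 2 (.s 0 (.s 2 (.s 1 (.s 2 (.l 900000000 0) (.l 0 0)) (.s 0 (.l 700000000
  0) (.s 2 (.l 4000000000 0) (.s 1 (.l 0 0) (.l 2000000000 0))))) (.l 0 0)) (.s 2 (.s 0 (.s 1 (.s
  2 (.l 3000000000 0) (.l 0 0)) (.s 2 (.l 9000000000 0) (.s 1 (.l 2000000000 0) (.l 4000000000
  0)))) (.s 1 (.s 0 (.l 3600000000 0) (.l 10000000000 0)) (.l 10000000000 0))) (.s 0 (.s 1 (.l 0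
  0) (.s 1 (.l 0 0) (.s 2 (.s 1 (.l 200000000 0) (.s 0 (.l 1100000000 0) (.s 2 (.l 4000000000 0)
  (.l 1400000000 0)))) (.l 0 0)))) (.s 1 (.s 0 (.l 0 0) (.s 2 (.s 0 (.l 1000000000 0) (.s 2 (.l
  4000000000 0) (.l 2000000000 0))) (.l 0 0))) (.s 2 (.s 0 (.l 3000000000 0) (.l 5000000000 0))
  (.s 0 (.l 1300000000 0) (.s 1 (.s 0 (.l 0 0) (.s 2 (.l 2000000000 0) (.l 0 0))) (.s 0 (.s 2 (.l
  3000000000 0) (.l 0 0)) (.s 2 (.l 4000000000 0) (.l 2000000000 0)))))))))) (.l 0 0)) (.s 2 (.s 0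
  (.l 0 0) (.l 0 0)) (.l 0 0))

lemma h1 : chkK 12 12 5 pm_oNN mGO mC4 (2 ^ 51) 7 22
    c1 3 6 4 5 6 4 0 2 2 = true := by decide +kernel

def c2 : TrK := .s 0 (.s 2 (.s 2 (.l 0 0) (.s 0 (.s 2 (.s 0 (.l 2000000000 0) (.l 600000000 0))
  (.s 0 (.l 4000000000 0) (.l 1700000000 0))) (.s 2 (.l 0 0) (.s 0 (.l 800000000 0) (.l 0 0)))))
  (.s 0 (.l 10000000000 0) (.s 1 (.s 0 (.l 4000000000 0) (.l 1050000000 0)) (.s 2 (.s 0 (.l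
  3000000000 0) (.l 1000000000 0)) (.l 4000000000 0))))) (.s 2 (.l 0 0) (.s 2 (.s 1 (.s 0 (.s 0
  (.l 500000000 0) (.l 10000000 0)) (.l 0 0)) (.s 2 (.s 0 (.l 200000000 0) (.l 0 0)) (.s 0 (.l
  700000000 0) (.l 0 0)))) (.l 900000000 0)))

lemma h2 : chkK 12 12 5 pm_oNN mGO mC4 (2 ^ 51) 7 22
    c2 0 3 8 5 6 4 2 4 2 = true := by decide +kernel

def c3 : TrK := .l 0 0

lemma h3 : chkK 12 12 5 pm_oNN mGO mC4 (2 ^ 51) 7 22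
    c3 3 6 8 5 6 4 4 6 4 = true := by decide +kernel

def c4 : TrK := .s 2 (.l 0 0) (.s 0 (.l 0 0) (.s 1 (.l 0 0) (.s 2 (.l 0 0) (.l 4000000000 0))))

lemma h4 : chkK 12 12 5 pm_oNN mGO mC4 (2 ^ 51) 7 22
    c4 3 6 8 10 11 8 6 8 4 = true := by decide +kernel

def c5 : TrK := .s 0 (.l 0 0) (.s 2 (.l 0 0) (.s 1 (.l 0 0) (.s 0 (.s 2 (.l 0 0) (.s 1 (.l 0 0)
  (.s 0 (.l 0 800000000) (.s 2 (.l 0 1200000000) (.s 1 (.l 0 1400000000) (.l 0 3000000000))))))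
  (.s 2 (.s 1 (.l 0 0) (.s 0 (.s 2 (.l 0 0) (.l 0 1520000000)) (.s 2 (.l 0 1800000000) (.s 1 (.l 0
  2000000000) (.l 0 3000000000))))) (.s 1 (.s 0 (.s 1 (.l 0 0) (.s 2 (.l 0 0) (.l 0 1700000000)))
  (.s 1 (.l 0 2000000000) (.s 2 (.l 0 2000000000) (.l 0 3000000000)))) (.s 0 (.s 2 (.s 1 (.l 0
  1700000000) (.l 0 3000000000)) (.l 0 2600000000)) (.s 2 (.l 0 3000000000) (.l 0
  7000000000))))))))

lemma h5 : chkK 12 12 5 pm_oNN mGO mC4 (2 ^ 51) 7 22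
    c5 3 6 8 11 12 8 12 14 8 = true := by decide +kernel

def c6 : TrK := .s 0 (.s 0 (.l 0 0) (.s 1 (.l 1000000000 0) (.s 2 (.l 1200000000 300000000) (.l
  5000000000 0)))) (.s 1 (.s 2 (.s 0 (.s 1 (.l 0 0) (.s 2 (.l 0 0) (.s 0 (.l 800000000 0) (.s 1
  (.l 2000000000 0) (.s 2 (.l 0 1370000000) (.l 2000000000 2000000000)))))) (.s 1 (.s 2 (.l 0 0)
  (.s 1 (.l 0 0) (.s 0 (.l 2100000000 0) (.l 0 2400000000)))) (.s 2 (.s 0 (.s 1 (.l 0 0) (.s 2 (.l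
  0 0) (.l 0 1700000000))) (.s 1 (.l 0 2000000000) (.s 2 (.l 0 2000000000) (.l 0 2800000000))))
  (.s 0 (.s 1 (.s 2 (.l 0 1600000000) (.s 0 (.l 0 2000000000) (.l 0 2400000000))) (.s 2 (.s 0 (.l
  0 2000000000) (.l 0 2600000000)) (.l 0 3000000000))) (.s 1 (.s 2 (.l 0 2700000000) (.l 0
  4000000000)) (.l 0 5000000000)))))) (.s 0 (.l 8000000000 0) (.s 1 (.s 2 (.s 0 (.l 6000000000 0)
  (.s 1 (.l 2000000000 2000000000) (.l 2000000000 3000000000))) (.l 10000000000 0)) (.l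
  10000000000 7000000000)))) (.s 2 (.s 0 (.s 2 (.s 1 (.s 0 (.l 0 837000000) (.s 1 (.s 2 (.l 0 0)
  (.l 0 1400000000)) (.s 2 (.l 0 1400000000) (.l 0 2000000000)))) (.s 0 (.l 0 1400000000) (.l 0
  2500000000))) (.s 1 (.s 0 (.l 2000000000 1000000000) (.s 1 (.s 2 (.l 0 1850000000) (.l 0
  3000000000)) (.l 0 4000000000))) (.l 0 4000000000))) (.s 2 (.s 1 (.s 0 (.s 1 (.s 2 (.l 0
  1700000000) (.l 0 2250000000)) (.s 2 (.l 0 2300000000) (.l 0 5000000000))) (.s 1 (.s 2 (.l 0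
  3000000000) (.l 0 6000000000)) (.l 0 7000000000))) (.l 0 8000000000)) (.l 0 10000000000))) (.l
  200000000000 0)))

lemma h6 : chkK 12 12 5 pm_oNN mGO mC4 (2 ^ 51) 7 22
    c6 3 6 8 11 12 8 14 16 8 = true := by decide +kernel

def c7 : TrK := .l 0 0

lemma h7 : chkK 12 12 5 pm_oNN mGO mC4 (2 ^ 51) 7 22
    c7 3 6 4 5 6 4 8 10 8 = true := by decide +kernel

end Pool.Agent.EMT.TO3
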