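import Pool.Agent.EMT.TBridge
import Pool.Agent.EMT.TX.oNS

/-!
# EMT / TY / O6p0: boxes of one inequality
-/

set_option autoImplicit false
set_option maxRecDepth 100000

namespace Pool.Agent.EMT.TO6

open KN (PM TrK chkK Pre)

def c0 : TrK := .s 2 (.s 0 (.s 2 (.s 0 (.s 2 (.l 8000000000 0) (.s 1 (.l 0 0) (.s 0 (.l 5000000000
  0) (.s 2 (.l 2000000000 0) (.l 500000000 0))))) (.s 2 (.s 0 (.l 2000000000 0) (.l 500000000 0))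
  (.s 1 (.l 0 0) (.l 100000000 0)))) (.s 0 (.s 0 (.s 1 (.l 0 0) (.s 2 (.s 0 (.l 1400000000 0) (.s
  2 (.l 1000000000 0) (.l 0 0))) (.s 0 (.l 400000000 0) (.l 0 0)))) (.l 0 0)) (.l 0 0))) (.s 2 (.l
  0 0) (.l 0 0))) (.s 0 (.s 2 (.s 0 (.l 90000000 0) (.l 0 0)) (.l 0 0)) (.s 2 (.l 0 0) (.l
  40000000 0)))

lemma h0 : chkK 12 12 5 pm_oNS mGO mC4 (2 ^ 51) 7 22
    c0 0 3 4 4 5 4 0 2 1 = true := by decide +kernel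

def c1 : TrK := .s 0 (.s 2 (.l 0 0) (.l 0 0)) (.s 2 (.s 0 (.l 0 0) (.s 2 (.s 0 (.s 2 (.l 200000000
  0) (.l 0 0)) (.s 2 (.s 1 (.l 500000000 0) (.l 1700000000 0)) (.s 0 (.l 0 0) (.s 1 (.l 0 0) (.l
  400000000 0))))) (.l 0 0))) (.s 2 (.l 0 0) (.l 0 0)))

lemma h1 : chkK 12 12 5 pm_oNS mGO mC4 (2 ^ 51) 7 22
    c1 3 6 4 4 5 4 0 2 2 = true := by decide +kernel

def c2 : TrK := .s 2 (.l 0 0) (.s 1 (.l 0 0) (.s 0 (.l 0 0) (.s 2 (.l 0 0) (.s 1 (.l 0 0) (.s 0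
  (.s 1 (.l 0 0) (.s 2 (.l 0 0) (.s 0 (.l 0 0) (.s 1 (.l 0 0) (.s 2 (.l 0 0) (.s 0 (.l 1000000000
  0) (.s 1 (.l 3000000000 0) (.s 2 (.l 0 5000000000) (.l 43000000000 1000000000))))))))) (.s 2 (.s
  1 (.l 0 0) (.s 0 (.l 0 2700000000) (.s 2 (.s 1 (.l 0 0) (.s 0 (.l 0 0) (.s 2 (.l 0 0) (.l 0
  5000000000)))) (.s 1 (.s 0 (.l 0 0) (.l 0 5200000000)) (.s 0 (.s 2 (.l 0 5000000000) (.l 0
  5840000000)) (.s 2 (.l 0 6200000000) (.l 0 7000000000))))))) (.s 1 (.s 0 (.l 0 0) (.s 1 (.l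
  1000000000 3000000000) (.s 2 (.l 0 5000000000) (.s 0 (.l 700000000 5000000000) (.l 400000000
  7000000000))))) (.s 0 (.s 2 (.s 1 (.l 0 3000000000) (.s 0 (.s 1 (.l 0 0) (.s 2 (.l 0 0) (.l 0
  5000000000))) (.s 2 (.l 0 5500000000) (.l 0 6400000000)))) (.s 1 (.s 0 (.l 3000000000 0) (.l
  200000000 6000000000)) (.s 0 (.s 1 (.l 900000000 5000000000) (.s 2 (.l 0 6000000000) (.l 0
  9000000000))) (.l 0 8000000000)))) (.s 2 (.s 1 (.s 0 (.l 0 5700000000) (.l 0 7100000000)) (.s 0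
  (.s 2 (.l 0 7000000000) (.l 0 10000000000)) (.l 0 20000000000))) (.s 1 (.s 0 (.l 0 8000000000)
  (.l 0 20000000000)) (.l 0 20000000000)))))))))))

lemma h2 : chkK 12 12 5 pm_oNS mGO mC4 (2 ^ 51) 7 22
    c2 6 9 8 4 5 4 2 4 2 = true := by decide +kernel

def c3 : TrK := .s 2 (.l 0 0) (.s 1 (.l 0 0) (.s 0 (.l 0 0) (.s 2 (.l 0 0) (.s 1 (.l 0 0) (.s 0
  (.l 0 0) (.s 2 (.l 0 0) (.s 1 (.l 0 0) (.s 0 (.l 0 0) (.s 2 (.l 0 3000000000) (.s 1 (.l 0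
  4000000000) (.l 0 5000000000)))))))))))

lemma h3 : chkK 12 12 5 pm_oNS mGO mC4 (2 ^ 51) 7 22
    c3 18 21 16 4 5 4 4 6 4 = true := by decide +kernel

def c4 : TrK := .s 2 (.s 2 (.l 0 0) (.s 0 (.l 0 0) (.s 1 (.s 0 (.l 0 0) (.l 0 800000000)) (.s 2
  (.l 0 0) (.s 0 (.l 0 0) (.l 0 5000000000)))))) (.s 1 (.s 0 (.s 1 (.l 0 0) (.s 0 (.l 0 0) (.s 2
  (.l 0 0) (.l 0 1300000000)))) (.s 2 (.s 0 (.s 1 (.l 0 0) (.l 0 1000000000)) (.s 1 (.s 0 (.l 0 0)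
  (.l 0 1800000000)) (.l 0 3000000000))) (.s 1 (.s 0 (.l 0 600000000) (.s 1 (.s 0 (.l 0 0) (.s 1
  (.l 0 2300000000) (.l 0 3000000000))) (.s 0 (.l 0 3000000000) (.l 0 8000000000)))) (.s 0 (.s 1
  (.s 0 (.l 0 1000000000) (.l 0 3000000000)) (.s 2 (.l 0 3000000000) (.l 0 5000000000))) (.l 0
  10000000000))))) (.s 0 (.s 2 (.s 1 (.l 0 0) (.s 0 (.l 0 0) (.s 2 (.l 0 0) (.s 1 (.l 0
  3000000000) (.l 0 4400000000))))) (.s 1 (.s 0 (.s 2 (.l 0 0) (.s 1 (.l 0 0) (.l 0 3000000000)))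
  (.s 2 (.s 1 (.l 0 2000000000) (.l 0 3000000000)) (.s 1 (.l 0 3460000000) (.l 0 5000000000))))
  (.s 0 (.s 2 (.s 1 (.l 0 2000000000) (.s 0 (.l 0 3000000000) (.l 0 4800000000))) (.s 1 (.s 0 (.l
  0 4000000000) (.l 0 5000000000)) (.s 0 (.s 2 (.l 0 5000000000) (.l 0 7000000000)) (.l 0
  10000000000)))) (.s 2 (.s 1 (.l 0 5000000000) (.l 0 8000000000)) (.l 0 20000000000))))) (.s 2
  (.s 2 (.s 0 (.s 1 (.l 0 2000000000) (.l 0 4000000000)) (.l 0 10000000000)) (.s 1 (.s 0 (.l 0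
  4000000000) (.l 0 9000000000)) (.l 0 10000000000))) (.s 1 (.s 0 (.l 0 7000000000) (.l 0
  20000000000)) (.l 0 20000000000)))))

lemma h4 : chkK 12 12 5 pm_oNS mGO mC4 (2 ^ 51) 7 22
    c4 21 24 16 4 5 4 4 6 4 = true := by decide +kernel

def c5 : TrK := .s 1 (.l 0 0) (.s 0 (.l 0 0) (.s 2 (.l 0 0) (.s 1 (.l 0 0) (.s 0 (.l 1000000000 0)
  (.s 2 (.s 1 (.l 0 0) (.s 0 (.l 0 0) (.s 2 (.l 0 4000000000) (.s 1 (.l 0 6000000000) (.s 0 (.l 0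
  6000000000) (.l 0 7350000000)))))) (.s 1 (.s 0 (.l 0 0) (.s 2 (.l 0 6400000000) (.l 1000000000
  7000000000))) (.s 0 (.s 2 (.s 1 (.l 0 0) (.l 0 7000000000)) (.l 1000000000 7600000000)) (.s 2
  (.s 1 (.s 0 (.l 0 7000000000) (.l 0 8500000000)) (.s 0 (.l 0 8500000000) (.l 0 10000000000)))
  (.s 1 (.l 200000000 10000000000) (.l 0 20000000000))))))))))

lemma h5 : chkK 12 12 5 pm_oNS mGO mC4 (2 ^ 51) 7 22
    c5 18 21 16 8 9 8 6 8 4 = true := by decide +kernel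

end Pool.Agent.EMT.TO6
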