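import Pool.Agent.EMT.TBridge
import Pool.Agent.EMT.TX.sNN

/-!
# EMT / TY / S1p0: boxes of one inequality
-/

set_option autoImplicit false
set_option maxRecDepth 100000

namespace Pool.Agent.EMT.TS1

open KN (PM TrK chkK Pre)

def c0 : TrK := .s 2 (.l 0 0) (.s 0 (.s 1 (.l 0 0) (.s 1 (.s 2 (.l 0 0) (.s 0 (.l 200000000 0) (.s
  1 (.s 2 (.l 0 0) (.l 0 0)) (.s 2 (.l 0 0) (.s 0 (.l 0 0) (.l 0 0)))))) (.s 2 (.l 0 0) (.s 1 (.s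
  0 (.l 1000000000 0) (.s 2 (.l 0 0) (.l 80000000 0))) (.s 2 (.s 0 (.l 400000000 0) (.l 0 0)) (.l
  120000000 0)))))) (.s 1 (.s 0 (.s 2 (.l 0 0) (.s 1 (.l 200000000 0) (.s 0 (.s 2 (.l 0 0) (.l 0
  0)) (.s 2 (.l 0 0) (.s 1 (.l 0 0) (.l 0 0)))))) (.s 2 (.l 0 0) (.s 0 (.s 1 (.l 1000000000 0) (.s
  2 (.l 0 0) (.l 80000000 0))) (.s 2 (.s 1 (.l 400000000 0) (.l 0 0)) (.l 120000000 0))))) (.s 0
  (.s 1 (.s 2 (.l 0 0) (.s 2 (.l 0 0) (.s 0 (.l 0 0) (.l 0 0)))) (.s 2 (.l 0 0) (.s 2 (.l 0 0) (.l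
  0 0)))) (.s 2 (.l 0 0) (.s 2 (.l 0 0) (.l 0 0))))))

lemma h0 : chkK 12 12 5 pm_sNN mGS mC0 (2 ^ 58) 14 0
    c0 0 3 4 0 3 4 0 3 4 = true := by decide +kernel

def c1 : TrK := .s 2 (.s 0 (.s 1 (.s 2 (.l 2000000000 0) (.s 0 (.l 70000000000 0) (.s 1 (.l
  10000000000 0) (.l 4400000000 0)))) (.s 1 (.s 2 (.s 0 (.l 3000000000 0) (.s 1 (.s 0 (.l
  2000000000 0) (.l 700000000 0)) (.l 700000000 0))) (.s 0 (.l 10000000000 0) (.l 2300000000 0)))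
  (.s 0 (.l 2000000000 0) (.l 0 0)))) (.s 1 (.s 0 (.s 2 (.s 1 (.l 3000000000 0) (.s 0 (.s 1 (.l
  2000000000 0) (.l 700000000 0)) (.l 700000000 0))) (.s 1 (.l 10000000000 0) (.l 2300000000 0)))
  (.s 1 (.l 2000000000 0) (.l 0 0))) (.s 2 (.l 0 0) (.l 0 0)))) (.s 0 (.s 1 (.s 0 (.s 1 (.l
  200000000000 0) (.l 40000000000 0)) (.s 1 (.l 40000000000 0) (.s 2 (.s 0 (.l 10000000000 0) (.l
  7000000000 0)) (.l 10000000000 0)))) (.s 1 (.s 0 (.l 10000000000 0) (.l 1000000000 0)) (.l 0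
  0))) (.s 1 (.s 0 (.s 1 (.l 10000000000 0) (.l 1000000000 0)) (.l 0 0)) (.l 0 0)))

lemma h1 : chkK 12 12 5 pm_sNN mGS mC0 (2 ^ 58) 14 0
    c1 0 3 4 0 3 4 6 9 8 = true := by decide +kernel

def c2 : TrK := .s 1 (.s 0 (.s 1 (.l 200000000000 0) (.s 2 (.l 100000000000 0) (.s 2 (.l
  80000000000 0) (.s 0 (.l 50000000000 0) (.s 1 (.l 30000000000 0) (.l 8100000000 0)))))) (.s 1
  (.s 2 (.l 100000000000 0) (.s 2 (.l 80000000000 0) (.s 1 (.l 50000000000 0) (.s 0 (.l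
  30000000000 0) (.l 8100000000 0))))) (.s 2 (.l 60000000000 0) (.s 2 (.l 30000000000 0) (.s 2 (.l
  20000000000 0) (.s 0 (.s 1 (.l 4000000000 0) (.l 1240000000 0)) (.s 2 (.l 0 0) (.s 2 (.l 0 0)
  (.s 1 (.l 1240000000 0) (.l 0 0)))))))))) (.s 2 (.s 0 (.l 60000000000 0) (.l 20000000000 0)) (.s
  0 (.s 1 (.s 2 (.l 40000000000 0) (.s 0 (.s 1 (.l 20000000000 0) (.l 3000000000 0)) (.s 2 (.l 0
  0) (.s 2 (.l 0 0) (.s 2 (.l 0 0) (.s 1 (.s 2 (.l 0 0) (.s 0 (.l 3000000000 0) (.l 200000000 0)))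
  (.l 0 0))))))) (.s 2 (.l 2000000000 0) (.s 2 (.l 0 0) (.s 2 (.l 0 0) (.s 2 (.l 0 0) (.s 0 (.s 2
  (.l 0 0) (.s 1 (.l 1000000000 0) (.l 0 0))) (.l 0 0))))))) (.l 0 0)))

lemma h2 : chkK 12 12 5 pm_sNN mGS mC0 (2 ^ 58) 14 0
    c2 0 3 16 0 3 8 9 12 8 = true := by decide +kernel

def c3 : TrK := .s 1 (.s 2 (.s 1 (.l 60000000000 0) (.l 20000000000 0)) (.s 1 (.s 0 (.s 2 (.l
  40000000000 0) (.s 1 (.s 0 (.l 20000000000 0) (.l 3000000000 0)) (.s 2 (.l 0 0) (.s 2 (.l 0 0)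
  (.s 2 (.l 0 0) (.s 0 (.s 2 (.l 0 0) (.s 1 (.l 3000000000 0) (.l 200000000 0))) (.l 0 0)))))))
  (.s 2 (.l 2000000000 0) (.s 2 (.l 0 0) (.s 2 (.l 0 0) (.s 2 (.l 0 0) (.s 1 (.s 2 (.l 0 0) (.s 0
  (.l 1000000000 0) (.l 0 0))) (.l 0 0))))))) (.l 0 0))) (.s 2 (.l 9000000000 0) (.l 0 0))

lemma h3 : chkK 12 12 5 pm_sNN mGS mC0 (2 ^ 58) 14 0
    c3 3 6 16 0 3 8 9 12 8 = true := by decide +kernel

def c4 : TrK := .s 2 (.s 1 (.l 6000000000 0) (.l 0 0)) (.s 2 (.l 0 0) (.s 2 (.l 0 0) (.s 2 (.l 0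
  0) (.s 0 (.s 2 (.l 0 0) (.s 2 (.l 0 0) (.s 0 (.s 1 (.l 0 0) (.s 2 (.l 0 0) (.s 0 (.l 500000000
  0) (.l 0 0)))) (.l 0 0)))) (.l 0 0)))))

lemma h4 : chkK 12 12 5 pm_sNN mGS mC0 (2 ^ 58) 14 0
    c4 0 3 8 3 6 8 9 12 8 = true := by decide +kernel

def c5 : TrK := .s 1 (.s 2 (.s 0 (.l 6000000000 0) (.l 0 0)) (.s 2 (.l 0 0) (.s 2 (.l 0 0) (.s 2
  (.l 0 0) (.s 1 (.s 2 (.l 0 0) (.s 2 (.l 0 0) (.s 1 (.s 0 (.l 0 0) (.s 2 (.l 0 0) (.s 1 (.l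
  500000000 0) (.l 0 0)))) (.l 0 0)))) (.l 0 0)))))) (.l 0 0)

lemma h5 : chkK 12 12 5 pm_sNN mGS mC0 (2 ^ 58) 14 0
    c5 3 6 8 0 3 4 9 12 8 = true := by decide +kernel

end Pool.Agent.EMT.TS1
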