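import Pool.Agent.EMT.TBridge
import Pool.Agent.EMT.TX.sNS

/-!
# EMT / TY / S2ap0: boxes of one inequality
-/

set_option autoImplicit false
set_option maxRecDepth 100000

namespace Pool.Agent.EMT.TS2a

open KN (PM TrK chkK Pre)

def c0 : TrK := .s 1 (.s 2 (.l 0 0) (.s 0 (.s 2 (.l 0 0) (.s 1 (.l 3000000000 0) (.l 0 0))) (.s 2
  (.l 0 0) (.s 0 (.s 1 (.l 10000000000 0) (.s 1 (.s 2 (.l 0 0) (.l 0 0)) (.s 2 (.l 0 0) (.l 0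
  0)))) (.s 1 (.s 2 (.l 0 0) (.s 1 (.l 9000000000 0) (.s 0 (.s 2 (.l 0 0) (.s 0 (.l 500000000 0)
  (.s 2 (.l 0 0) (.s 1 (.l 1000000000 0) (.l 0 0))))) (.s 2 (.l 0 0) (.s 2 (.l 200000000 0) (.s 1
  (.l 1000000000 0) (.l 0 0))))))) (.s 1 (.s 2 (.l 0 0) (.l 0 0)) (.s 2 (.l 0 0) (.l 0 0))))))))
  (.s 1 (.s 2 (.s 0 (.l 0 0) (.s 1 (.l 0 0) (.s 2 (.l 0 0) (.l 0 0)))) (.s 0 (.s 1 (.s 2 (.l 0 0)
  (.l 0 0)) (.s 2 (.l 0 0) (.l 0 0))) (.s 2 (.s 1 (.l 0 0) (.l 0 0)) (.s 1 (.s 0 (.s 2 (.l 0 0)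
  (.l 0 0)) (.l 0 0)) (.l 0 0))))) (.s 2 (.s 0 (.s 1 (.s 2 (.l 0 0) (.l 100000000 0)) (.s 2 (.l
  2000000000 0) (.s 0 (.l 700000000 0) (.l 800000000 0)))) (.s 2 (.s 1 (.s 0 (.l 200000000 0) (.l
  80000000 0)) (.s 0 (.s 2 (.l 1000000000 0) (.l 400000000 0)) (.l 300000000 0))) (.s 1 (.l 0 0)
  (.l 0 0)))) (.s 0 (.s 2 (.s 0 (.l 0 0) (.l 0 0)) (.l 0 0)) (.s 2 (.l 0 0) (.l 0 0)))))

lemma h0 : chkK 12 12 5 pm_sNS mGS mC0 (2 ^ 58) 14 0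
    c0 0 5 8 0 5 4 0 3 4 = true := by decide +kernel

def c1 : TrK := .s 0 (.s 1 (.s 2 (.l 0 0) (.s 2 (.s 0 (.l 0 0) (.s 1 (.l 0 0) (.l 0 0))) (.s 0 (.s
  2 (.s 1 (.l 0 0) (.l 0 0)) (.s 1 (.s 1 (.l 3000000000 0) (.l 0 0)) (.l 0 0))) (.s 1 (.s 1 (.l 0
  0) (.s 2 (.l 0 0) (.l 0 0))) (.l 0 0))))) (.s 2 (.s 1 (.s 2 (.l 0 0) (.l 0 0)) (.s 2 (.s 1 (.l 0
  0) (.l 0 0)) (.l 0 0))) (.s 1 (.l 0 0) (.s 2 (.l 0 0) (.l 0 0))))) (.s 1 (.s 2 (.s 1 (.s 2 (.l 0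
  0) (.l 0 0)) (.s 2 (.l 0 0) (.l 0 0))) (.s 1 (.s 2 (.l 0 0) (.l 0 0)) (.l 0 0))) (.s 2 (.s 1 (.s
  2 (.l 0 0) (.l 0 0)) (.s 2 (.l 0 0) (.l 0 0))) (.s 1 (.s 2 (.l 0 0) (.l 0 0)) (.s 2 (.l 0 0) (.l
  0 0)))))

lemma h1 : chkK 12 12 5 pm_sNS mGS mC0 (2 ^ 58) 14 0
    c1 5 10 8 0 5 4 0 3 4 = true := by decide +kernel

def c2 : TrK := .s 0 (.s 1 (.s 2 (.s 1 (.s 0 (.l 90000000000 0) (.s 2 (.l 20000000000 0) (.s 1 (.l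
  40000000000 0) (.l 14000000000 0)))) (.s 0 (.l 20000000000 0) (.s 0 (.s 2 (.s 0 (.l 6000000000
  0) (.s 2 (.s 0 (.l 2000000000 0) (.s 2 (.l 1000000000 0) (.s 1 (.l 3000000000 0) (.l 1000000000
  0)))) (.s 1 (.l 6000000000 0) (.l 1700000000 0)))) (.s 1 (.l 10000000000 0) (.s 2 (.l 3000000000
  0) (.l 4000000000 0)))) (.s 2 (.s 2 (.s 0 (.s 1 (.l 3000000000 0) (.l 620000000 0)) (.s 1 (.l
  1000000000 0) (.l 0 0))) (.s 1 (.l 3000000000 0) (.l 1000000000 0))) (.s 0 (.l 2700000000 0) (.l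
  0 0)))))) (.s 0 (.s 1 (.l 100000000000 0) (.s 0 (.l 60000000000 0) (.l 18000000000 0))) (.s 1
  (.s 0 (.l 30000000000 0) (.l 10000000000 0)) (.s 0 (.s 1 (.l 10000000000 0) (.l 5000000000 0))
  (.l 0 0))))) (.s 2 (.s 0 (.s 1 (.s 2 (.l 0 0) (.l 3000000000 0)) (.l 1300000000 0)) (.s 0 (.s 2
  (.l 300000000 0) (.l 900000000 0)) (.s 2 (.l 0 0) (.l 0 0)))) (.s 0 (.s 0 (.l 13000000000 0) (.s
  1 (.l 6000000000 0) (.l 0 0))) (.l 0 0)))) (.s 0 (.s 1 (.s 2 (.s 0 (.s 1 (.l 3000000000 0) (.l 0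
  0)) (.l 0 0)) (.l 0 0)) (.l 0 0)) (.s 1 (.l 0 0) (.l 0 0)))

lemma h2 : chkK 12 12 5 pm_sNS mGS mC0 (2 ^ 58) 14 0
    c2 0 5 4 0 5 8 6 9 8 = true := by decide +kernel

def c3 : TrK := .s 0 (.s 1 (.s 0 (.s 1 (.s 0 (.s 1 (.l 100000000000 0) (.s 2 (.l 90000000000 0)
  (.s 0 (.l 70000000000 0) (.s 2 (.l 50000000000 0) (.s 2 (.l 20000000000 0) (.s 1 (.l 8000000000
  0) (.l 1300000000 0))))))) (.s 2 (.l 44000000000 0) (.s 1 (.s 2 (.l 50000000000 0) (.s 0 (.s 1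
  (.l 20000000000 0) (.s 2 (.l 10000000000 0) (.l 2000000000 0))) (.s 2 (.l 0 0) (.s 2 (.l 0 0)
  (.s 2 (.l 0 0) (.s 2 (.l 0 0) (.s 1 (.l 2000000000 0) (.l 0 0)))))))) (.s 2 (.l 20000000000 0)
  (.l 200000000 0))))) (.s 0 (.s 2 (.l 40000000000 0) (.s 0 (.s 1 (.s 2 (.l 50000000000 0) (.s 0
  (.l 20000000000 0) (.s 2 (.l 9000000000 0) (.l 2000000000 0)))) (.s 2 (.l 20000000000 0) (.s 2
  (.l 0 0) (.s 2 (.l 0 0) (.s 2 (.l 0 0) (.s 0 (.l 2000000000 0) (.l 0 0))))))) (.s 2 (.l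
  20000000000 0) (.l 0 0)))) (.s 2 (.l 16000000000 0) (.l 0 0)))) (.s 1 (.s 0 (.s 2 (.l
  20000000000 0) (.l 0 0)) (.l 0 0)) (.l 0 0))) (.s 0 (.s 2 (.s 0 (.l 12000000000 0) (.l 0 0)) (.l
  0 0)) (.l 0 0))) (.s 2 (.l 0 0) (.s 1 (.l 0 0) (.l 0 0)))

lemma h3 : chkK 12 12 5 pm_sNS mGS mC0 (2 ^ 58) 14 0
    c3 0 5 4 0 5 8 9 12 8 = true := by decide +kernel

end Pool.Agent.EMT.TS2a
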